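import Pool.Agent.MWA.Stmts
import Pool.Agent.MWF.Defs

/-!
# Block MWA, arbitrary period `n`: base (a) with `x² ≈ x^(n+2)` (definitions)

`x² t x ≈ x² t x^(n+1)` (`RrP`) or `x t x² ≈ x^(n+1) t x²` (`RdP`).
-/

namespace Pool.Agent.MWA

open Pool.Agent.Helper14_MV Pool.Agent.Helper2_MV Pool.Agent.MVO Pool.Agent.MWL Pool.Agent.MWS

/-- base (a) with period `n`: s1, s2, `x²y² ≈ y²x²`, `x² ≈ x^(n+2)` -/
structure BsP (n : ℕ) (β : FIC) : Prop where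
  pos : 1 ≤ n
  cl : ClA β
  r0 : R0 β
  ap : RR β [0, 0] (List.replicate (n + 2) 0)

theorem BsP.mono {n : ℕ} {β θ : FIC} (h : BsP n β) (hle : β ≤ θ) : BsP n θ :=
  ⟨h.pos, ClA.mono h.cl hle, hle _ _ h.r0, hle _ _ h.ap⟩

/-- `x² t x ≈ x² t x^(n+1)` -/
def RrP (n : ℕ) (β : FIC) : Prop := RR β [0, 0, 2, 0] ([0, 0, 2] ++ List.replicate (n + 1) 0)

/-- `x t x² ≈ x^(n+1) t x²` -/
def RdP (n : ℕ) (β : FIC) : Prop := RR β [0, 2, 0, 0] (List.replicate (n + 1) 0 ++ [2, 0, 0])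

/-- `θ` absorbs: `a ≈ a + 2n e_i` -/
def AbN (n : ℕ) (θ : FIC) (k : ℕ) (a : ℕ → ℕ) (i : ℕ) : Prop := Ab n (FC.ofFIC θ) k a i

theorem AbN_iff (n : ℕ) (θ : FIC) (k : ℕ) (a : ℕ → ℕ) (i : ℕ) :
    AbN n θ k a i ↔ L1 θ k a (ad n a i) := Iff.rfl

theorem AbN.mono {n : ℕ} {β θ : FIC} (hle : β ≤ θ) {k : ℕ} {a : ℕ → ℕ} {i : ℕ}
    (h : AbN n β k a i) : AbN n θ k a i := hle _ _ h

/-- congruences above `β` without `xy ≈ yx` preserve the numbers of occurrences up to `2` -/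
def CapP (β : FIC) : Prop :=
  ∀ θ : FIC, β ≤ θ → NC2 θ → ∀ u v : List ℕ, RR θ u v →
    ∀ c, min (u.count c) 2 = min (v.count c) 2

/-- the largest fully invariant congruence which preserves the word `xy` -/
def mu : FIC := Pool.Agent.MWF.gaml (fun w => w = [0, 1])

/-- the one letter facts which are used -/
structure OLN (n : ℕ) (β : FIC) : Prop where
  key : ∀ θ : FIC, β ≤ θ → NC2 θ → ∀ (k : ℕ) (a b : ℕ → ℕ), L1 θ k a b →
    ∀ i ≤ k, ¬ AbN n θ k a i → a i = b i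
  law : ∀ ρ σ τ υ : FIC, β ≤ ρ → β ≤ σ → β ≤ τ → β ≤ υ → NC2 ρ → NC2 σ → NC2 τ →
    (∀ k a b, L1 ρ k a b → L1 τ k a b → L1 υ k a b) →
      (∀ k a b, L1 σ k a b → L1 τ k a b → L1 υ k a b) →
        ∀ (k : ℕ) (a b : ℕ → ℕ), L1 τ k a b → Jn (FC.ofFIC ρ) (FC.ofFIC σ) k a b → L1 υ k a b

/-- the condition on a system -/
def JPn (n : ℕ) (β : FIC) : Prop :=
  ∀ θ : FIC, β ≤ θ → NC2 θ → ∀ (k : ℕ) (a b : ℕ → ℕ) (i j : ℕ), 2 ≤ deg k a → 2 ≤ deg k b →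
    Lst k a i → Lst k b i → j ≤ i → AbN n θ k a j → ¬ AbN n β k a j →
      Bt θ k a b i ∨ ∀ θ' : FIC, β ≤ θ' → Bt θ' k (ad n a j) b i → Bt θ' k a b i

/-- `x|x|x` absorbs in block `t` -/
def J3n (n : ℕ) (β : FIC) (t : ℕ) : Prop := AbN n β 2 (v3 1 1 1) t
/-- `|xx` absorbs in block `0` -/
def Gn (n : ℕ) (β : FIC) : Prop := AbN n β 1 (v2 0 2) 0
/-- `x|xx` absorbs in block `0` -/
def D0n (n : ℕ) (β : FIC) : Prop := AbN n β 1 (v2 1 2) 0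

/-! ### the systems -/

/-- a1 -/
structure SP1 (n : ℕ) (β : FIC) : Prop where
  g : Gn n β
  j : J3n n β 2

/-- a2 -/
structure SP2 (n : ℕ) (β : FIC) : Prop where
  j : J3n n β 2
  c : C2f β

/-- a3 -/
structure SP3 (β : FIC) : Prop where
  a : A1f β

/-- a4 -/
structure SP4 (n : ℕ) (β : FIC) : Prop where
  j : J3n n β 2
  d : D0n n β
  c : C4f β

/-- b3 -/
structure SQ3 (n : ℕ) (β : FIC) : Prop where
  a : A1f β
  p : Pf β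
  j : J3n n β 0
  q : Qf β

/-- b4 -/
structure SQ4 (n : ℕ) (β : FIC) : Prop where
  a : A1f β
  p : Pf β
  j : J3n n β 0
  j' : J3n n β 1
  c : Cf β

/-- b5 -/
structure SQ5 (n : ℕ) (β : FIC) : Prop where
  g : Gn n β
  j : J3n n β 0
  j' : J3n n β 1
  p : Pf β
  c : C5f β

/-- b7 -/
structure SQ7 (β : FIC) : Prop where
  a : B7f β
  b : B8f β

end Pool.Agent.MWA
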