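import Pool.Agent.MWA.DefsP

/-!
# Block MWA, arbitrary period `n`, part 1: the general theorem (rows)

Every row: file `Pool/Agent/HelperNN_MWA/XXX.lean`, import `Pool.Agent.MWA.StmtsP`, namespace
`Pool.Agent.MWA.HNN`, theorem `xxx (hypotheses = rows in uses, in this order) : XxxStmt`.
Conventions as in `Stmts.lean`; `ad n a j = a + 2n e_j`, `AbN n θ k a j` is `L1 θ k a (ad n a j)`
(definitionally `MWL.Ab n (FC.ofFIC θ) k a j`, so the rows TRN, KEY of MWL apply).  For `n = 1` most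
of the rows are proved (table mwa, ord 1 - 44); TNF, GW2, W2R, W2X, BTF, BTU, USE of that part do not
depend on the period and are used as they are.
-/

namespace Pool.Agent.MWA

open Pool.Agent.Helper14_MV Pool.Agent.Helper2_MV Pool.Agent.MVO Pool.Agent.MWL Pool.Agent.MWS

/-! ### basic facts -/

/-- **HAP** (uses MWL.TRN).  Heavy blocks absorb; absorption in several blocks at once.
PROOF (as HAB).  (0) `RR θ (replicate p 0) (replicate q 0)` for `p, q ≥ 2`, `p ≡ q [MOD n]` (let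
`q = p + m n`; append to `ap`, induction on `m`).  (1) If `i ≤ k`, `2 ≤ a i`, `2 ≤ m`, `a i ≡ m [MOD n]`:
`L1 θ k a (Function.update a i m)` (`asm_split`, `asm_update`, (0), `RR.append`).  First statement:
`m = a i + 2 n` and `FC.ext`.  Second statement: for `m ≤ k + 1` let `c_m r := if r < m then c r else a r`;
`L1 θ k a c_m` by induction on `m`.  Step: if `c m = a m`, then `c_(m+1) = c_m` on `0..k`.  Otherwise
`AbN n θ k a m`; by TRN (1) `AbN n θ k c_m m`, i.e. `c_m ~ c_m + 2n e_m`, whose entry at `m` is `≥ 2` and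
`≡ a m ≡ c m`, so it can be changed to `c m` by (1). -/
def HapStmt : Prop :=
  ∀ (n : ℕ) (θ : FIC), 1 ≤ n → RR θ [0, 0] (List.replicate (n + 2) 0) →
    (∀ (k : ℕ) (a : ℕ → ℕ) (i : ℕ), i ≤ k → 2 ≤ a i → AbN n θ k a i) ∧
    (∀ (k : ℕ) (a c : ℕ → ℕ),
      (∀ i ≤ k, c i = a i ∨ (2 ≤ c i ∧ c i ≡ a i [MOD n] ∧ AbN n θ k a i)) → L1 θ k a c)

/-- **BTP** (uses MVO.FAA, W2R).  First facts on exchanges (as BTA, with other hypotheses).
PROOF.  (1) W2R for `e` and `flp e i` (they agree off `i`; if `i` is not a common last block there is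
nothing to check at `i`).  (2) FAA, fifth part.  (3) FAA, sixth part. -/
def BtpStmt : Prop :=
  ∀ θ : FIC, ClA θ → R0 θ →
    (∀ (k : ℕ) (a b : ℕ → ℕ) (i : ℕ), deg k a ≠ 1 → deg k b ≠ 1 → ¬ (Lst k a i ∧ Lst k b i) →
      Bt θ k a b i) ∧
    (∀ (k : ℕ) (a b : ℕ → ℕ) (i : ℕ), Bt θ k a b i → Bt θ k b a i) ∧
    (∀ (k : ℕ) (a b : ℕ → ℕ) (i : ℕ), i ≤ k → 2 ≤ a i → 2 ≤ b i → Bt θ k a b i)

/-- **BTR** (uses HAP, BTF, BTU).  Exchanges do not depend on the entries in absorbing blocks.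
PROOF.  `c' r := if c r = a r then a r else a r + n * c r + 2 * n`.  `c ≤ c'` (`n ≥ 1`), so BTU with
`k0 = k`, `f = id` (`psh k id c = c` on `0..k`) gives `Bt θ k c' b i`.  HAP: `L1 θ k a c'` (`c' r ≡ a r`,
`2 ≤ c' r`).  BTF (2) with `b' = b` (`L1 θ k b b` is `RR.refl`). -/
def BtrStmt : Prop :=
  ∀ (n : ℕ) (θ : FIC), BsP n θ → ∀ (k : ℕ) (a c b : ℕ → ℕ) (i : ℕ), 2 ≤ deg k c → 2 ≤ deg k b →
    Lst k c i → Lst k b i → (∀ r ≤ k, c r = a r ∨ AbN n θ k a r) → Bt θ k c b i → Bt θ k a b i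

/-- **ABP** (uses MWL.TRN).  The base absorptions at given blocks (as ABU).
PROOF.  TRN (4) with `f t := if t = 0 then r else i` resp. `if t = 0 then r else if t = 1 then r'
else i`, TRN (2) with `d t := a t - (..)`, TRN (3). -/
def AbpStmt : Prop :=
  ∀ (n : ℕ) (θ : FIC),
    (∀ (p q k r i x : ℕ) (a : ℕ → ℕ), x ≤ 1 → AbN n θ 1 (v2 p q) x → r ≤ i → i ≤ k →
      (∀ t ≤ k, (if t = r then p else 0) + (if t = i then q else 0) ≤ a t) →
        AbN n θ k a (if x = 0 then r else i)) ∧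
    (∀ (p q s k r r' i x : ℕ) (a : ℕ → ℕ), x ≤ 2 → AbN n θ 2 (v3 p q s) x → r ≤ r' → r' ≤ i →
      i ≤ k → (∀ t ≤ k, (if t = r then p else 0) + (if t = r' then q else 0) +
        (if t = i then s else 0) ≤ a t) →
        AbN n θ k a (if x = 0 then r else if x = 1 then r' else i))

/-- **CPN** (uses GW2, BTP).
PROOF.  Let `β ≤ θ`, `NC2 θ` (`BsP.mono`), `RR θ u v`, and suppose `min p 2 ≠ min q 2` for
`p = u.count c`, `q = v.count c`; by symmetry `p ≤ 1`, `p < q`.  `RR.filter` (`d = c`) and `RR.sub` (`c ↦ [0]`):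
`RR θ (replicate p 0) (replicate q 0)`; if `p = 0` append `[0]`.  So `RR θ [0] (replicate m 0)` with some
`m ≥ 2`.  Substitute `0 ↦ [0,1]` and `0 ↦ [1,0]`: `[0,1] ~ (01)^m`, `[1,0] ~ (10)^m`.  GW2 with `k = 0`:
`(01)^m ~ w2 0 a b e` and `(10)^m ~ w2 0 a b e'`, `a = b = fun _ => m`, `e = fun _ => false`,
`e' = fun _ => true` (the types of `(01)^m` at block `0`; `FC`-free: `w2 0` only uses the values at `0`).
BTP (3): `Bt θ 0 a b 0`, so the two words are related.  Hence `RR θ [0,1] [1,0]`: contradiction. -/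
def CpnStmt : Prop := ∀ (n : ℕ) (β : FIC), BsP n β → CapP β

/-! ### block words, with `CapP β` in place of `ApI β` (copy the proofs of the rows of MWS) -/

/-- **NRQ** (uses nothing).  PROOF.  As the row NRM of MWS (table mws, column path), with the hypothesis
`CapP β` in place of the row CAP: `hcap θ hle hnc u v h` for `CAP β θ hap hle hnc u v h`. -/
def NrqStmt : Prop :=
  ∀ β θ : FIC, CapP β → β ≤ θ → NC2 θ → ∀ (k : ℕ) (B : ℕ → List ℕ) (v : List ℕ), OkB k B →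
    RR θ (asm k B) v → ∃ B' : ℕ → List ℕ, v = asm k B' ∧ OkB k B' ∧ MWS.Sub k B B'

/-- **CHQ** (uses NRQ).  PROOF.  As the row CHN of MWS, with NRQ for NRM. -/
def ChqStmt : Prop :=
  ∀ β ρ σ : FIC, CapP β → β ≤ ρ → β ≤ σ → NC2 ρ → NC2 σ → ∀ (k : ℕ) (B : ℕ → List ℕ)
    (v : List ℕ), OkB k B → RR (FIC.sup ρ σ) (asm k B) v →
      ∃ B' : ℕ → List ℕ, v = asm k B' ∧ OkB k B' ∧ MWS.Sub k B B' ∧
        Relation.ReflTransGen (StM ρ σ k) B B'

/-- **BLQ** (uses MVO.REN, NRQ).  PROOF.  As the row BLK of MWS, with NRQ for NRM. -/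
def BlqStmt : Prop := ∀ β : FIC, CapP β → MJB β → MJN β

/-- **NDQ** (uses MWL.NDF).  PROOF.  NDF: `NC2 θ` is the first hypothesis; if `j ≠ 1` and
`RR θ [0] (replicate j 0)`, then `CapP` gives `min 1 2 = min j 2`, so `j = 1`, a contradiction. -/
def NdqStmt : Prop := ∀ β θ : FIC, CapP β → β ≤ θ → NC2 θ → ND (FC.ofFIC θ)

/-! ### the congruences with `xy ≈ yx` -/

/-- **CMN** (uses MVO.COM).  A congruence with `xy ≈ yx` is given by the numbers of occurrences.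
PROOF.  `F := (u ++ v).dedup`.  By COM `u ~ F.flatMap (fun c => replicate (u.count c) c)`, the same for
`v` (equal counts of all letters); the two products are related factor by factor: `RR.sub` with
`0 ↦ [c]` in the hypothesis, `RR.append`, induction on `F`. -/
def CmnStmt : Prop :=
  ∀ θ : FIC, ¬ NC2 θ → ∀ u v : List ℕ,
    (∀ c, RR θ (List.replicate (u.count c) 0) (List.replicate (v.count c) 0)) → RR θ u v

/-- **OD1** (uses nothing).  The distributive law for powers of one letter.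
PROOF.  `Helper4_MV.one_distrib`: `(u, v) ∈ A ∨ B` and `∈ A ∨ C` give `(x^p, x^q) ∈ A ∨ (B ∧ C)`,
`p = cnt c u`, `q = cnt c v`.  First with `A = σ`, `B = ρ`, `C = τ`: `(x^p, x^q) ∈ sup σ (inf ρ τ)`.  Then for
the words `x^p`, `x^q` with `A = inf ρ τ`, `B = σ`, `C = τ`: `(x^p, x^q) ∈ sup (inf ρ τ) σ` (`sup` is symmetric:
`FIC.sup_le`, `FIC.le_sup_left`, `FIC.le_sup_right`) and `∈ sup (inf ρ τ) τ` (it is in `τ`: filter and rename
`RR τ u v`).  Result: `(x^p, x^q) ∈ sup (inf ρ τ) (inf σ τ) = psi ρ σ τ` (`cnt 0 (x^p) = p`). -/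
def Od1Stmt : Prop :=
  ∀ (ρ σ τ : FIC) (u v : List ℕ), RR (FIC.sup ρ σ) u v → RR τ u v → ∀ c,
    RR (psi ρ σ τ) (List.replicate (u.count c) 0) (List.replicate (v.count c) 0)

/-- **MUX** (uses nothing).  The congruence `mu`.
PROOF.  (1) `gaml_keep`: `[0,1] = [0,1]` would give `[1,0] = [0,1]`.  (2) `le_gaml`: let `RR θ [0,1] v`; by
`CapP` `v.count 0 = v.count 1 = 1` and the other counts are `0`, so `v = [0,1]` or `v = [1,0]`
(`List.perm_iff_count`), and `[1,0]` is excluded by `NC2 θ`.  (3) `RR_gaml`: let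
`p ++ u.flatMap f ++ q = [0,1]`; a word without repeated letters, so `f c = []` for all `c` with
`2 ≤ u.count c`.  Hence `u.flatMap f = (u.filter (count u c = 1)).flatMap f`, the same for `v` (`2 ≤ v.count c`
iff `2 ≤ u.count c`), so `v.flatMap f = u.flatMap f`.  The other direction by symmetry.  (4) Suppose
`p ≤ 1`, `p < q` for `p = u.count c`, `q = v.count c` (or exchanged), `min p 2 ≠ min q 2`.  Filter and rename:
`RR mu (replicate p 0) (replicate q 0)`.  `p = 0`: append `[0,1]`: `[0,1] = replicate q 0 ++ [0,1]` by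
`gaml_keep`, `q ≥ 1`, lengths.  `p = 1`: append `[1]`: `[0,1] = replicate q 0 ++ [1]`, `q ≥ 2`, lengths. -/
def MuxStmt : Prop :=
  NC2 mu ∧ (∀ β θ : FIC, CapP β → β ≤ θ → NC2 θ → θ ≤ mu) ∧
    (∀ u v : List ℕ, (∀ c, min (u.count c) 2 = min (v.count c) 2) →
      u.filter (fun c => u.count c = 1) = v.filter (fun c => v.count c = 1) → RR mu u v) ∧
    (∀ u v : List ℕ, RR mu u v → ∀ c, min (u.count c) 2 = min (v.count c) 2)

/-- **MUY** (uses MUX).  PROOF.  MUX (3): `u` and `u ++ replicate m c` have the same counts up to `2`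
(`2 ≤ u.count c`) and the same simple letters in the same order (`c` is not simple in both words). -/
def MuyStmt : Prop :=
  ∀ (u : List ℕ) (c m : ℕ), 2 ≤ u.count c → RR mu u (u ++ List.replicate m c)

/-- **DGA** (uses CMN, OD1).  PROOF.  `psi ρ σ τ` contains `inf ρ τ`, so `xy ≈ yx`; OD1 and CMN for
`psi ρ σ τ`. -/
def DgaStmt : Prop :=
  ∀ ρ σ τ : FIC, ¬ NC2 ρ → ¬ NC2 τ → ∀ u v : List ℕ, RR (FIC.sup ρ σ) u v → RR τ u v →
    RR (psi ρ σ τ) u v

/-- **DGB** (uses HAP, CMN, MUX, MUY).  The law with `mu`.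
PROOF.  `κ := sup (inf ρ mu) (inf σ mu)`; `κ ≤ sup ρ σ`, `κ ≤ mu`.  If `NC2 ρ` and `NC2 σ`: `ρ, σ ≤ mu` (MUX (2)), so
`sup ρ σ ≤ κ`.  Otherwise, by symmetry, `¬ NC2 ρ`.  Powers: `RR β (0^p) (0^q)` for `p, q ≥ 2`, `p ≡ q [MOD n]`
(step (0) of HAP; or HAP with `k = 0`).
STEP: let `RR κ u u'` and a letter `c` be given, `p = u'.count c`, `q = v.count c`; there is `u''` with
`RR κ u u''`, the counts of the other letters as in `u'`, and `u''.count c = q` if `q ≤ 1`, and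
`u''.count c ≡ q [MOD n]`, `2 ≤ u''.count c` if `2 ≤ q`.  Proof: `(u', v) ∈ mu` and `∈ sup ρ σ`, so
`min p 2 = min q 2` (MUX (4)); if `q ≤ 1` take `u'' = u'`.  Let `p, q ≥ 2`, `N := (2 n - 1) p ≥ 2`.  The chain of
`RR (sup ρ σ) u' v`, filtered to `c` (`Helper4_MV.one_chain`, or `FIC.sup` as a chain, `RR.filter`, `RR.sub`) is
a chain `p = p_0, .., p_m = q` with `RR ρ (0^(p_s)) (0^(p_(s+1)))` or the same for `σ`.  So (append `u'` in
front and `c^N`) `u' ++ c^(N + p_s) ~ u' ++ c^(N + p_(s+1))` in `ρ` or `σ`, and in `mu` by MUY.  Hence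
`RR κ (u' ++ c^(N+p)) (u' ++ c^(N+q))`.  `N + p = 2 n p`; `u' ~ u' ++ c^(2np)` in `mu` (MUY) and in `ρ` (CMN: the
count of `c` changes from `p` to `p + 2np`, the other counts do not change).  Take `u'' = u' ++ c^(N+q)`, count
`p + N + q = 2 n p + q`.
Apply STEP to all letters of `(u ++ v).dedup` one after the other: `u* `with `RR κ u u*`, and
`RR ρ (0^(u*.count c)) (0^(v.count c))` for all `c`; CMN: `RR ρ u* v`; `RR mu u* v`.  So `RR κ u v`. -/
def DgbStmt : Prop :=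
  ∀ (n : ℕ) (β : FIC), BsP n β → CapP β → ∀ ρ σ : FIC, β ≤ ρ → β ≤ σ → ∀ u v : List ℕ,
    RR (FIC.sup ρ σ) u v → RR mu u v → RR (FIC.sup (FIC.inf ρ mu) (FIC.inf σ mu)) u v

/-- **DGP** (uses MUX, DGA, DGB).  The degenerate cases of the distributive law.
PROOF.  `ρ σ τ ≥ β`, `(u, v) ∈ sup ρ σ`, `∈ τ`.  (A) `¬ NC2 τ` and `¬ NC2 ρ`: DGA.  `¬ NC2 τ` and `¬ NC2 σ`: DGA with
`ρ`, `σ` exchanged (`sup σ ρ`, `psi σ ρ τ` are contained in `sup ρ σ`, `psi ρ σ τ` and conversely).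
(B) `¬ NC2 τ`, `NC2 ρ`, `NC2 σ`: `ρ, σ ≤ mu` (MUX), so `sup ρ σ ≤ mu`; `τ' := inf τ mu` satisfies `NC2 τ'` (it is
`≤ mu`) and `β ≤ τ'` (`β ≤ ρ ≤ mu`); `MJN` for `ρ, σ, τ'`, and `psi ρ σ τ' ≤ psi ρ σ τ`.
(C) `NC2 τ`: `τ ≤ mu`, so `(u, v) ∈ mu`; DGB: `(u, v) ∈ sup (inf ρ mu) (inf σ mu)`; `MJN` for `inf ρ mu`, `inf σ mu`,
`τ` (`β ≤ τ ≤ mu`), and `psi (inf ρ mu) (inf σ mu) τ ≤ psi ρ σ τ`. -/
def DgpStmt : Prop := ∀ (n : ℕ) (β : FIC), BsP n β → CapP β → MJN β → MJ β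

/-! ### 2-determination and the law for two letter words -/

/-- **TYQ** (uses MVO.GAA, MVO.ALN).  PROOF.  As the row TYA (table mwa, column path), with `CapP β` in
place of CAP, and `ClA β`. -/
def TyqStmt : Prop :=
  ∀ β : FIC, ClA β → CapP β → ∀ θ : FIC, β ≤ θ → NC2 θ → ∀ (k : ℕ) (B B' : ℕ → List ℕ),
    OkB k B → OkB k B' → (∀ x, NS k x → L1 θ k (ty B x) (ty B' x)) →
      ∃ (X : List ℕ) (D D' : ℕ → List ℕ), GData k X (fun j c => (B' j).count c) D ∧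
        (∀ j, (D' j).Perm X) ∧ RR θ (asm k B) (gw k (fun j c => (B' j).count c) D) ∧
        RR θ (asm k B') (gw k (fun j c => (B' j).count c) D')

/-- **ORQ** (uses MVO.SWA, MVO.BUB, W2X, BTP).  PROOF.  As the row ORA, with BTP for BTA. -/
def OrqStmt : Prop :=
  ∀ β : FIC, ClA β → R0 β → ∀ θ : FIC, β ≤ θ → ∀ (k : ℕ) (X : List ℕ) (n : ℕ → ℕ → ℕ)
    (D D' : ℕ → List ℕ), GData k X n D → (∀ j, (D' j).Perm X) →
      (∀ x ∈ X, ∀ y ∈ X, x ≠ y → RR θ (asm k (r2 x y (fun j => gb (n j) (D j))))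
        (asm k (r2 x y (fun j => gb (n j) (D' j))))) → RR θ (gw k n D) (gw k n D')

/-- **D2Q** (uses MVO.ONE, TYQ, ORQ).  PROOF.  As the row D2A. -/
def D2qStmt : Prop := ∀ β : FIC, ClA β → R0 β → CapP β → D2 β

/-- **OLQ** (uses MVO.ONE, CHQ).  PROOF.  As the row OLP, with CHQ for CHN. -/
def OlqStmt : Prop :=
  ∀ (n : ℕ) (β : FIC), CapP β → OLN n β → ∀ ρ σ τ : FIC, β ≤ ρ → β ≤ σ → β ≤ τ → NC2 ρ → NC2 σ →
    NC2 τ → ∀ (k : ℕ) (B B' : ℕ → List ℕ), OkB k B → OkB k B' →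
      RR (FIC.sup ρ σ) (asm k B) (asm k B') → RR τ (asm k B) (asm k B') →
        ∀ x, NS k x → L1 (psi ρ σ τ) k (ty B x) (ty B' x)

/-- **SPQ** (uses MWL.TRN, MVO.ONE, CHQ, HAP, GW2, W2X, BTF, BTP, BTR).  Join primality of an exchange
whose types absorb in `ρ` and in `σ` only where they absorb in `β`.
PROOF.  Suppose neither `Bt ρ k a b i` nor `Bt σ k a b i`.  Let `S`, `S'` be the sets of all `j ≤ k` with
`AbN n β k a j`, `AbN n β k b j`.  No `j ∈ S` is `> i`: otherwise `¬ Lst k (ad n a j) i`, so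
`Bt β k (ad n a j) b i` by BTP (1), and `Bt β k a b i` by BTF (2), which is in `ρ`.  The same for `S'`.  For a
family `B` let `B⁺ j := (if j ∈ S then replicate (2n) 0 else []) ++ (if j ∈ S' then replicate (2n) 1 else [])
++ B j`.  Let `W e` be the blocks `fun j => bl (a j) (b j) (e j)` of `w2 k a b e`, `e0 := fun _ => false`,
`e1 := flp e0 i`, and let `A B` be: `OkB k B`, `Two01 k B`, for all `j ≤ k`: `(B j).count 0 = a j` if `j ∉ S`,
`(B j).count 1 = b j` if `j ∉ S'`, and `(B⁺ i).getLast? = some 1`.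
(i) `A (W e0)` (block `i` ends with `1`), not `A (W e1)` (block `i` ends with `0`); `i` is a common last block.
(ii) Let `θ` be `ρ` or `σ`, `A B`, `OkB k B'`, `Two01 k B'`, `RR θ (asm k B) (asm k B')`; then `A B'`.  `rr_ins'`:
`RR θ (asm k B⁺) (asm k B'⁺)`.  Let `c, d` be the types of `0, 1` in `B⁺`, and `c', d'` in `B'⁺`.  ONE:
`L1 θ k c c'`, `L1 θ k d d'`.  `c = a` off `S`, `c ≥ 2` on `S`.  If `j ≤ k`, `j ∉ S`, then `¬ AbN n θ k c j`:
otherwise let `x t := if t ∈ S then (n-1) * c t + a t else 0`; `c + x` absorbs at `j` (TRN (2)), and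
`L1 β k a (c + x)` by HAP (on `S` the entry is `n * c t + a t`), so `AbN n θ k a j` (TRN (1)), so
`AbN n β k a j` by hypothesis, `j ∈ S`.  So `key` gives `c' j = c j = a j` for `j ∉ S`; the same for `d'`.
Let `e j := decide ((B⁺ j).getLast? = some 0)`, `e'` the same for `B'⁺`.  GW2: `asm k B⁺ ~ w2 k c d e`,
`asm k B'⁺ ~ w2 k c' d' e'`; BTF (1): `w2 k c d e' ~ w2 k c' d' e'` in `θ`.  So
`RR θ (w2 k c d e) (w2 k c d e')`; `e i = false`.  `Lst k c i`, `Lst k d i` (no element of `S`, `S'` is `> i`),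
`2 ≤ deg`.  If `e' i = true`: W2X: `Bt θ k c d i`; BTR (for `c`, `a`; then, with BTP (2), for `d`, `b`):
`Bt θ k a b i`, a contradiction.  So `e' i = false`; the block `B'⁺ i` is not empty (`c' i ≠ 0`), so it ends
with `1`.
CHQ for the pair `w2 k a b e0`, `w2 k a b e1` of `sup ρ σ`: a chain of `StM ρ σ k` from `W e0` to some
`B''` with `asm k B'' = asm k (W e1)`; all families of the chain satisfy `A` (`Two01` by `MWS.Sub`);
`B'' j = W e1 j` for `j ≤ k` (`uniq`), so `A (W e1)`: contradiction. -/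
def SpqStmt : Prop :=
  ∀ (n : ℕ) (β : FIC), BsP n β → CapP β → OLN n β → ∀ ρ σ : FIC, β ≤ ρ → β ≤ σ → NC2 ρ → NC2 σ →
    ∀ (k : ℕ) (a b : ℕ → ℕ) (i : ℕ), 2 ≤ deg k a → 2 ≤ deg k b → Lst k a i → Lst k b i →
      (∀ j ≤ k, (AbN n ρ k a j → AbN n β k a j) ∧ (AbN n σ k a j → AbN n β k a j) ∧
        (AbN n ρ k b j → AbN n β k b j) ∧ (AbN n σ k b j → AbN n β k b j)) →
        Bt (FIC.sup ρ σ) k a b i → Bt ρ k a b i ∨ Bt σ k a b i

/-- **JPQ** (uses MWL.TRN, HAP, BTF, BTP, BTU, SPQ).  Join primality of the exchanges.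
PROOF.  As the row JPX, with AbN, HAP, BTP, SPQ and `ad n a j` in place of AbF, HAB, BTA, SPX, `a2 a j`. -/
def JpqStmt : Prop :=
  ∀ (n : ℕ) (β : FIC), BsP n β → CapP β → OLN n β → JPn n β → ∀ ρ σ : FIC, β ≤ ρ → β ≤ σ → NC2 ρ →
    NC2 σ → ∀ (k : ℕ) (a b : ℕ → ℕ) (i : ℕ), 2 ≤ deg k a → 2 ≤ deg k b → Lst k a i → Lst k b i →
      Bt (FIC.sup ρ σ) k a b i → Bt ρ k a b i ∨ Bt σ k a b i

/-- **MJQ** (uses OLQ, JPQ, GW2, W2R, W2X, BTF).  PROOF.  As the row MJA. -/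
def MjqStmt : Prop := ∀ (n : ℕ) (β : FIC), BsP n β → CapP β → OLN n β → JPn n β → MJ2 β

/-- **SFQ** (uses CPN, D2Q, MJQ, MWS.TLP, BLQ, DGP, MWS.GLD).  The general theorem, period `n`.
PROOF.  `CapP β` by CPN; `D2 β`, `MJ2 β`, TLP: `MJB β`; BLQ: `MJN β`; DGP: `MJ β`; GLD. -/
def SfqStmt : Prop := ∀ (n : ℕ) (β : FIC), BsP n β → OLN n β → JPn n β → DistF β

/-- **ORN** (uses MWL.KEY, MWL.LAW, NDQ).  The one letter facts for `x²tx ≈ x²tx^(n+1)`.
PROOF.  For `θ ≥ β`: `LR n (FC.ofFIC θ)`: `pos`; `per`: `mw 0 (sg 0 m) = replicate m 0`; `rr`: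
`mw 1 (v2 2 m) = [0,0,2] ++ replicate m 0`.  `ND (FC.ofFIC θ)` by NDQ if `NC2 θ`.  `key` is KEY, `law` is
LAW. -/
def OrnStmt : Prop :=
  ∀ (n : ℕ) (β : FIC), 1 ≤ n → RR β [0, 0] (List.replicate (n + 2) 0) → CapP β → RrP n β → OLN n β

/-- **ODN** (uses MWL.KEY, MWL.LAW, MWL.REV, NDQ).  The one letter facts for `xtx² ≈ x^(n+1)tx²`.
PROOF.  As the row OLD (table mwa, column path), with period `n`: for `θ ≥ β` let `R' θ` be the reversed
congruence of `FC.ofFIC θ` (REV); `LR n (R' θ)`: `rr` is `RdP` (`mw 1 (v2 m 2) = replicate m 0 ++ [2,0,0]`);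
`ND (R' θ)` from NDQ; KEY and LAW for the reversed congruences. -/
def OdnStmt : Prop :=
  ∀ (n : ℕ) (β : FIC), 1 ≤ n → RR β [0, 0] (List.replicate (n + 2) 0) → CapP β → RdP n β → OLN n β

end Pool.Agent.MWA
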