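import Pool.Agent.MWA.StmtsP

/-!
# Block MWA, arbitrary period `n`, part 2: the condition `JPn` for the eight systems (rows)

Conventions as in `StmtsP.lean`.  Every row is the period `n` version of a row of `StmtsB.lean` (the
name in brackets); the proof for `n = 1` is on main (table mwa, column path) and the same proof works
with the replacements AbF → AbN n, `a2 a j` → `ad n a j`, HAB → HAP, BTA → BTP, ABU → ABP, EQV → EQP,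
MVA → MVP, ...  FACTS for `θ ≥ β`:
(T1) TRN; (T2) HAP: `2 ≤ a i` gives `AbN n θ k a i`; if `c` agrees with `a` off blocks where `a` absorbs,
and `c ≥ 2`, `c ≡ a [MOD n]` there, then `L1 θ k a c`; (T3) BTF (2), and BTR: `Bt θ k c b i` gives
`Bt θ k a b i` if `c` agrees with `a` off the blocks where `a` absorbs in `θ`; (T4) BTP: symmetry;
`2 ≤ a i`, `2 ≤ b i` give `Bt θ k a b i`; (T5) USE, ABP; (T6) `Bt.mono`, `AbN.mono`, `L1.mono`.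
-/

namespace Pool.Agent.MWA

open Pool.Agent.Helper14_MV Pool.Agent.Helper2_MV Pool.Agent.MVO Pool.Agent.MWL Pool.Agent.MWS

/-- **HRP** (uses MWL.TRN).  [HVR] Absorption goes to later non-empty blocks.
PROOF.  `j = i`: trivial.  `j < i`: `RrP n θ` is `L1 θ 1 (v2 2 1) (v2 2 (n+1))` (the words `mw` are equal).  Push
with `f t := if t = 0 then j else i` and add: for every `z` with `2 ≤ z j`, `1 ≤ z i`: `z ~ z + n e_i`, hence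
`z ~ z + 2n e_i`.  `z = ad n a j` (`2n ≥ 2`): `AbN n θ k (ad n a j) i`; TRN (1). -/
def HrpStmt : Prop :=
  ∀ (n : ℕ) (θ : FIC), 1 ≤ n → RrP n θ → ∀ (k : ℕ) (a : ℕ → ℕ) (i j : ℕ), j ≤ i → i ≤ k →
    a i ≠ 0 → AbN n θ k a j → AbN n θ k a i

/-- **HDP** (uses MWL.TRN).  [HVD] Absorption goes to earlier non-empty blocks.
PROOF.  As HRP, with `L1 θ 1 (v2 1 2) (v2 (n+1) 2)` pushed to `i < j`. -/
def HdpStmt : Prop :=
  ∀ (n : ℕ) (θ : FIC), 1 ≤ n → RdP n θ → ∀ (k : ℕ) (a : ℕ → ℕ) (i j : ℕ), i ≤ j → j ≤ k →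
    a i ≠ 0 → AbN n θ k a j → AbN n θ k a i

/-- **MVP** (uses MWL.TRN, HAP).  [MVA] Absorption in an empty block can be moved towards another
absorbing block.
PROOF.  As MVA, with `c r := if r = s then n * psh k g a s + a s + 2 * n else a r` (so `c s ≡ a s`, `c s ≥ 2`,
`psh k g a r ≤ c r`). -/
def MvpStmt : Prop :=
  ∀ (n : ℕ) (θ : FIC), 1 ≤ n → RR θ [0, 0] (List.replicate (n + 2) 0) →
    ∀ (k : ℕ) (a : ℕ → ℕ) (j p s : ℕ), ((j < p ∧ p < s) ∨ (s < p ∧ p < j)) → j ≤ k → s ≤ k →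
      a j = 0 → AbN n θ k a j → AbN n θ k a s → AbN n θ k a p

/-- **EQP** (uses BTU, BTR).  [EQV] If `b` vanishes between `j` and a block `s` where `a` absorbs in `β`,
the exchange for `a` follows from the exchange for `a + 2n e_j`.
PROOF.  As EQV: `f r := if (j ≤ r ∧ r ≤ s) ∨ (s ≤ r ∧ r ≤ j) then s else r`,
`c r := if r = s then psh k f (ad n a j) s else a r`; BTU: `Bt θ' k c b i`; BTR for `θ'`. -/
def EqpStmt : Prop :=
  ∀ (n : ℕ) (β : FIC), BsP n β → ∀ (k : ℕ) (a b : ℕ → ℕ) (i j s : ℕ), 2 ≤ deg k a → 2 ≤ deg k b →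
    Lst k a i → Lst k b i → j < i → s ≤ i → AbN n β k a s →
      (∀ r, ((j ≤ r ∧ r ≤ s) ∨ (s ≤ r ∧ r ≤ j)) → r ≠ s → b r = 0) →
        ∀ θ' : FIC, β ≤ θ' → Bt θ' k (ad n a j) b i → Bt θ' k a b i

/-- **LGP** (uses HAP, ABP).  [LGT] Light types of degree 2.  PROOF.  As LGT. -/
def LgpStmt : Prop :=
  ∀ (n : ℕ) (θ : FIC), 1 ≤ n → RR θ [0, 0] (List.replicate (n + 2) 0) →
    ∀ (k : ℕ) (b : ℕ → ℕ) (i x : ℕ), 2 ≤ deg k b → Lst k b i → b i = 1 → (x = 0 ∨ x = 2) →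
      J3n n θ x → (∀ r < i, ¬ AbN n θ k b r) → (x = 2 → ¬ AbN n θ k b i) → ∃ p, Two2 k b p i

/-- **RCP** (uses MWL.TRN, HAP, HRP, LGP, BTF, BTP).  [RCM] The common part for `RrP` and `J3n n β 2`.
PROOF.  As RCM. -/
def RcpStmt : Prop :=
  ∀ (n : ℕ) (β : FIC), BsP n β → RrP n β → J3n n β 2 → ∀ θ : FIC, β ≤ θ →
    ∀ (k : ℕ) (a b : ℕ → ℕ) (i j : ℕ), 2 ≤ deg k a → 2 ≤ deg k b → Lst k a i → Lst k b i →
      j ≤ i → AbN n θ k a j → Bt θ k a b i ∨ (AbN n β k a i ∧ ∃ p, Two2 k b p i)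

/-- **RP1** (uses MWL.TRN, ABP, RCP).  [RA1] -/
def Rp1Stmt : Prop := ∀ (n : ℕ) (β : FIC), BsP n β → RrP n β → SP1 n β → JPn n β

/-- **RP2** (uses MWL.TRN, USE, BTF, BTP, EQP, RCP).  [RA2]  (`c = a + 2n e_j + 2n e_i`.) -/
def Rp2Stmt : Prop := ∀ (n : ℕ) (β : FIC), BsP n β → RrP n β → SP2 n β → JPn n β

/-- **RP3** (uses HAP, HRP, USE, BTF, BTP).  [RA3] -/
def Rp3Stmt : Prop := ∀ (n : ℕ) (β : FIC), BsP n β → RrP n β → SP3 β → JPn n β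

/-- **RP4** (uses MWL.TRN, USE, ABP, BTF, BTP, MVP, EQP, RCP).  [RA4]  (`c = a + 2n e_p + 2n e_i`.) -/
def Rp4Stmt : Prop := ∀ (n : ℕ) (β : FIC), BsP n β → RrP n β → SP4 n β → JPn n β

/-- **RDP** (uses USE, BTP).  [RDA] -/
def RdpStmt : Prop :=
  ∀ β : FIC, ClA β → R0 β → A1f β → ∀ (k : ℕ) (a b : ℕ → ℕ) (i : ℕ), 2 ≤ deg k a → 2 ≤ deg k b →
    Lst k a i → Lst k b i → (2 ≤ a i ∨ 2 ≤ b i) → Bt β k a b i

/-- **PPQ** (uses USE, BTF, BTP).  [PPP] -/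
def PpqStmt : Prop :=
  ∀ (n : ℕ) (β : FIC), BsP n β → Pf β → ∀ θ : FIC, β ≤ θ → ∀ (k : ℕ) (a b : ℕ → ℕ) (i j r : ℕ),
    Lst k a i → Lst k b i → j < i → r < i → AbN n θ k a j → AbN n θ k b r → Bt θ k a b i

/-- **LSP** (uses MWL.TRN, HAP, LGP).  [LSM] -/
def LspStmt : Prop :=
  ∀ (n : ℕ) (β : FIC), BsP n β → J3n n β 0 → ∀ θ : FIC, β ≤ θ → ∀ (k : ℕ) (a b : ℕ → ℕ)
    (i j p : ℕ), 2 ≤ deg k a → Lst k a i → a i = 1 → j < i → AbN n θ k a j → Two2 k b p i →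
      ¬ AbN n θ k b p → ∃ s < i, AbN n β k a s

/-- **RDQ** (uses LGP, RDP, BTF, PPQ, LSP).  [RDC] -/
def RdqStmt : Prop :=
  ∀ (n : ℕ) (β : FIC), BsP n β → A1f β → Pf β → J3n n β 0 → ∀ θ : FIC, β ≤ θ →
    ∀ (k : ℕ) (a b : ℕ → ℕ) (i j : ℕ), 2 ≤ deg k a → 2 ≤ deg k b → Lst k a i → Lst k b i →
      j ≤ i → AbN n θ k a j → Bt θ k a b i ∨ (j < i ∧ (∃ s < i, AbN n β k a s) ∧ ∃ p, Two2 k b p i)

/-- **RQ3** (uses HAP, USE, BTF, BTP, EQP, RDQ).  [RB3]  (`c r := a r + (if r = j ∨ r = s then 4 * n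
else 0)`.) -/
def Rq3Stmt : Prop := ∀ (n : ℕ) (β : FIC), BsP n β → SQ3 n β → JPn n β

/-- **RQ4** (uses MWL.TRN, USE, ABP, BTF, BTP, HDP, MVP, EQP, RDQ).  [RB4] -/
def Rq4Stmt : Prop := ∀ (n : ℕ) (β : FIC), BsP n β → RdP n β → SQ4 n β → JPn n β

/-- **RQ5** (uses MWL.TRN, HAP, USE, ABP, BTF, BTP, LGP, PPQ, LSP).  [RB5]  (`c = a + 2n e_p + 2n e_i`,
`d = b + 2n e_q + 2n e_i`.) -/
def Rq5Stmt : Prop := ∀ (n : ℕ) (β : FIC), BsP n β → SQ5 n β → JPn n β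

/-- **RQ7** (uses HAP, BTU, USE, BTF, BTP, BTR, RDP).  [RB7]  (`A1f β`: BTU gives
`Bt β 1 (v2 1 1) (v2 0 3) 1`; symmetry and BTR change `v2 0 3` to `v2 0 2`.) -/
def Rq7Stmt : Prop := ∀ (n : ℕ) (β : FIC), BsP n β → SQ7 β → JPn n β

/-- **CNP** (uses MWL.TRN, HAP).  Absorption as identities between words.
PROOF.  The words are `mw k a`, e.g. the second identity is `L1 β 2 (v3 1 1 1) (v3 (n+1) (n+1) (n+1))`.
From left to right: if `L1 β k a a'` and `2 ≤ a' t`, `t ≤ k`, then `a'` absorbs at `t` (HAP), so `a` absorbs at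
`t` (TRN (1)).  From right to left: HAP, second part (`n + 1 ≡ 1 [MOD n]`).  First line: this is the
definition (`mw 1 (ad n (v2 0 2) 0)`).  `D0n n β` in the second line: `AbN n β 2 (v3 1 1 1) 0` pushed with
`f t := if t = 0 then 0 else 1` (TRN (4), (3)). -/
def CnpStmt : Prop :=
  ∀ (n : ℕ) (β : FIC), 1 ≤ n → RR β [0, 0] (List.replicate (n + 2) 0) →
    (RR β [2, 0, 0] (List.replicate (2 * n) 0 ++ [2, 0, 0]) ↔ Gn n β) ∧
    (RR β [0, 2, 0, 3, 0] (List.replicate (n + 1) 0 ++ 2 :: (List.replicate (n + 1) 0 ++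
      3 :: List.replicate (n + 1) 0)) ↔ J3n n β 0 ∧ J3n n β 1 ∧ J3n n β 2) ∧
    (J3n n β 0 ∧ J3n n β 2 → D0n n β) ∧
    (RR β [0, 2, 0, 3, 0] ([0, 2, 0, 3] ++ List.replicate (n + 1) 0) ↔ J3n n β 2) ∧
    (RR β [0, 2, 0, 3, 0] (List.replicate (n + 1) 0 ++ [2, 0, 3, 0]) ↔ J3n n β 0) ∧
    (RR β [0, 2, 0, 3, 0] (List.replicate (n + 1) 0 ++ 2 :: (List.replicate (n + 1) 0 ++ [3, 0])) ↔
      J3n n β 0 ∧ J3n n β 1)

/-- **FPR** (uses SFQ, CPN, ORN, RP1, RP2, RP3, RP4).  PROOF.  `OLN n β` by ORN and CPN; `JPn n β` by RP1 ..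
RP4; SFQ. -/
def FprStmt : Prop :=
  ∀ (n : ℕ) (β : FIC), BsP n β → RrP n β → (SP1 n β ∨ SP2 n β ∨ SP3 β ∨ SP4 n β) → DistF β

/-- **FPD** (uses SFQ, CPN, ODN, RQ3, RQ4, RQ5, RQ7).  PROOF.  `OLN n β` by ODN and CPN; `JPn n β` by RQ3 ..
RQ7; SFQ. -/
def FpdStmt : Prop :=
  ∀ (n : ℕ) (β : FIC), BsP n β → RdP n β → (SQ3 n β ∨ SQ4 n β ∨ SQ5 n β ∨ SQ7 β) → DistF β

end Pool.Agent.MWA
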