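import Pool.Agent.MWA.Stmts

/-!
# Block MWA, part 2: the condition `JPa` for the eight systems (rows)

Conventions as in `Stmts.lean`.  `e_p` is the unit vector; `a2 a j = a + 2 e_j`; absorption of `a` at `j` in
`θ` is `AbF θ k a j`.  FACTS used everywhere for `θ ≥ β` (`BsA.mono`):
(T1) `L1 θ k a b` implies that `a` and `b` absorb in the same blocks (TRN (1)); absorption is kept when
a vector is added (TRN (2)) and under maps of the blocks (TRN (4)), and depends only on the values on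
`0..k` (TRN (3)).
(T2) HAB: `2 ≤ a i` gives `AbF θ k a i`; if `c` agrees with `a` off blocks where `a` absorbs in `θ`, and
`c ≥ 2` in these blocks, then `L1 θ k a c`.
(T3) BTF (2): `L1 θ k a a'`, `L1 θ k b b'`, `Bt θ k a' b' i` give `Bt θ k a b i`.
(T4) BTA: symmetry; `2 ≤ a i`, `2 ≤ b i` give `Bt θ k a b i`.
(T5) USE: the base exchanges at given blocks; ABU: the base absorptions at given blocks.
(T6) `Bt.mono`, `AbF.mono`, `L1.mono` (Defs).
-/

namespace Pool.Agent.MWA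

open Pool.Agent.Helper14_MV Pool.Agent.Helper2_MV Pool.Agent.MVO Pool.Agent.MWL Pool.Agent.MWS

/-- **HVR** (uses MWL.TRN).  Over `x²tx ≈ x²tx²`: absorption goes to later non-empty blocks.
PROOF.  `j = i`: trivial.  `j < i`: `Rr θ` is `L1 θ 1 (v2 2 1) (v2 2 2)` (the words `mw` are equal by `rfl` or
`decide`).  Push with `f t := if t = 0 then j else i` and add `d t := a t - (if t = i then 1 else 0)`:
`a + 2 e_j ~ a + 2 e_j + e_i`; with `d + e_i`: `a + 2 e_j + e_i ~ a + 2 e_j + 2 e_i`.  So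
`AbF θ k (a2 a j) i`; as `L1 θ k a (a2 a j)`, TRN (1) gives `AbF θ k a i`. -/
def HvrStmt : Prop :=
  ∀ θ : FIC, Rr θ → ∀ (k : ℕ) (a : ℕ → ℕ) (i j : ℕ), j ≤ i → i ≤ k → a i ≠ 0 → AbF θ k a j →
    AbF θ k a i

/-- **HVD** (uses MWL.TRN).  Over `xtx² ≈ x²tx²`: absorption goes to earlier non-empty blocks.
PROOF.  As HVR, with `L1 θ 1 (v2 1 2) (v2 2 2)` pushed to `i < j`. -/
def HvdStmt : Prop :=
  ∀ θ : FIC, Rd θ → ∀ (k : ℕ) (a : ℕ → ℕ) (i j : ℕ), i ≤ j → j ≤ k → a i ≠ 0 → AbF θ k a j →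
    AbF θ k a i

/-- **MVA** (uses MWL.TRN, HAB).  Absorption in an empty block can be moved towards another absorbing
block.
PROOF.  Case `j < p < s`: `g r := if r < j then r else if r = j then p else if r ≤ s then s else r`; case
`s < p < j`: `g r := if r < s then r else if r < j then s else if r = j then p else r`.  `BMap k k g`, `g j = p`.
TRN (4): `AbF θ k (psh k g a) p`.  For `r ≤ k`, `r ≠ s`: `psh k g a r ≤ a r` (the preimages of `r` under `g` in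
`0..k` are: `r` itself if `r` is outside of the interval from `j` to `s`; none inside the interval, except
`j` for `r = p`, where `a j = 0`).  Let `c r := if r = s then psh k g a s + 2 else a r`; TRN (2), (3):
`AbF θ k c p`.  HAB: `L1 θ k a c` (`c s ≥ 2`, `AbF θ k a s`).  TRN (1). -/
def MvaStmt : Prop :=
  ∀ θ : FIC, RR θ [0, 0] [0, 0, 0] → ∀ (k : ℕ) (a : ℕ → ℕ) (j p s : ℕ),
    ((j < p ∧ p < s) ∨ (s < p ∧ p < j)) → j ≤ k → s ≤ k → a j = 0 → AbF θ k a j → AbF θ k a s →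
      AbF θ k a p

/-- **EQV** (uses HAB, BTF, BTU).  If `b` vanishes between `j` and a block `s` where `a` absorbs in `β`,
the exchange for `a` follows from the exchange for `a + 2 e_j`.
PROOF.  `f r := if (j ≤ r ∧ r ≤ s) ∨ (s ≤ r ∧ r ≤ j) then s else r`; `BMap k k f`, `f i = i` (if `s = i`, then `i`
is in the interval; otherwise `i` is larger than `j` and `s`), `f j = s`.  For `r ≤ k`:
`psh k f b r ≤ b r` (`r = s`: the sum of `b` over the interval is `b s`; `r ≠ s` in the interval: `0`; outside: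
`b r`).  Let `c r := if r = s then psh k f (a2 a j) s else a r`.  `psh k f (a2 a j) r ≤ c r` (`r ≠ s` in the
interval: `0`; outside: `a r`, because `j` is in the interval).  `2 ≤ c s` (`f j = s`).  BTU for
`Bt θ' k (a2 a j) b i` (its last block is `i`, `2 ≤ deg`): `Bt θ' k c b i`.  HAB: `L1 β k a c`; BTF (2):
`Bt θ' k a b i`. -/
def EqvStmt : Prop :=
  ∀ β : FIC, BsA β → ∀ (k : ℕ) (a b : ℕ → ℕ) (i j s : ℕ), 2 ≤ deg k a → 2 ≤ deg k b → Lst k a i →
    Lst k b i → j < i → s ≤ i → AbF β k a s →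
      (∀ r, ((j ≤ r ∧ r ≤ s) ∨ (s ≤ r ∧ r ≤ j)) → r ≠ s → b r = 0) →
        ∀ θ' : FIC, β ≤ θ' → Bt θ' k (a2 a j) b i → Bt θ' k a b i

/-- **LGT** (uses HAB, ABU).  A type which absorbs nowhere in `0..i` (if `x = 2`: not at `i`) is light of
degree 2.
PROOF.  `b r ≤ 1` for all `r ≤ i` (HAB, first part; for `x = 2` use the hypothesis `h`: `2 ≤ b r` gives
absorption at `r`, which is excluded).  `b i = 1` by `Lst`.  Let `M = {r < i : b r = 1}`; `deg k b = |M| + 1`, so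
`M` is not empty.  If `M` has two elements `r0 < r1`: ABU (second part) with the blocks `r0 < r1 < i` and
`J3f θ x` gives absorption at `r0` (`x = 0`) or at `i` (`x = 2`): excluded.  So `M = {p}`. -/
def LgtStmt : Prop :=
  ∀ θ : FIC, RR θ [0, 0] [0, 0, 0] → ∀ (k : ℕ) (b : ℕ → ℕ) (i x : ℕ), 2 ≤ deg k b → Lst k b i →
    b i = 1 → (x = 0 ∨ x = 2) → J3f θ x → (∀ r < i, ¬ AbF θ k b r) → (x = 2 → ¬ AbF θ k b i) →
      ∃ p, Two2 k b p i

/-- **RCM** (uses MWL.TRN, HAB, HVR, LGT, BTF, BTA).  The common part for `x²tx ≈ x²tx²` and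
`J3f β 2`.
PROOF.  (0) `AbF θ k a i` by HVR.  (1) If `AbF θ k b i`: `a2 a i`, `a2 b i` have entries `≥ 2` at `i`: (T4), (T3):
`Bt θ k a b i`.  (2) Otherwise no `r ≤ i` has `AbF θ k b r` (HVR), so `b i ≤ 1` (HAB), `b i = 1`, and LGT
(`x = 2`) gives `p` with `Two2 k b p i`.  (3) `AbF β k a i`: otherwise, as in (2) for `a` and `β`, there is `q`
with `Two2 k a q i`.  Let `f r := if r < i then p else r`; `BMap k k f`, and `psh k f a = b` on `0..k`
(`q ↦ p`, `i ↦ i`; all other entries of `a` are `0`).  TRN (4), (3) for `AbF θ k a i`: `AbF θ k b i`, excluded. -/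
def RcmStmt : Prop :=
  ∀ β : FIC, BsA β → Rr β → J3f β 2 → ∀ θ : FIC, β ≤ θ → ∀ (k : ℕ) (a b : ℕ → ℕ) (i j : ℕ),
    2 ≤ deg k a → 2 ≤ deg k b → Lst k a i → Lst k b i → j ≤ i → AbF θ k a j →
      Bt θ k a b i ∨ (AbF β k a i ∧ ∃ p, Two2 k b p i)

/-- **RA1** (uses MWL.TRN, ABU, RCM).
PROOF.  RCM.  In the second case `AbF β k a i`.  `j = i`: contradiction.  `j < i`: `a2 a i` has an entry `≥ 2`
at `i`; ABU (first part) for `Gf β` with the blocks `j < i`: `AbF β k (a2 a i) j`, TRN (1): `AbF β k a j`,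
contradiction. -/
def Ra1Stmt : Prop := ∀ β : FIC, BsA β → Rr β → J3f β 2 → Gf β → JPa β

/-- **RA2** (uses MWL.TRN, USE, BTF, BTA, EQV, RCM).
PROOF.  RCM.  In the second case `AbF β k a i`, `Two2 k b p i`.  `j ≠ i` (`¬ AbF β k a j`).  If `j ≤ p`: let
`c = a + 2 e_j + 2 e_i`; `L1 θ k a c` (`a ~ a2 a j` in `θ`; `a2 a j` absorbs at `i` by TRN (2)).  USE (second part)
for `C2f β` with the blocks `j ≤ p ≤ i`: the first vector `(0,1,1)` for `b`, the second `(2,0,2)` for `c`: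
`Bt β k b c i`; (T4), (T3): `Bt θ k a b i`.  If `p < j < i`: EQV with `s = i` (`b r = 0` for `j ≤ r < i`). -/
def Ra2Stmt : Prop := ∀ β : FIC, BsA β → Rr β → J3f β 2 → C2f β → JPa β

/-- **RA3** (uses HAB, HVR, USE, BTF, BTA).
PROOF.  `AbF θ k a i` by HVR.  If `AbF θ k b i`: `a2 a i`, `a2 b i` and (T4), (T3).  Otherwise `b i = 1` (HAB), and
as `2 ≤ deg k b` there is `p < i` with `1 ≤ b p`.  USE (first part) for `A1f β` with the blocks `p ≤ i`: the
first vector `(1,1)` for `b`, the second `(0,2)` for `a2 a i`: `Bt β k b (a2 a i) i`; (T4), (T3):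
`Bt θ k a b i`. -/
def Ra3Stmt : Prop := ∀ β : FIC, BsA β → Rr β → A1f β → JPa β

/-- **RA4** (uses MWL.TRN, USE, ABU, BTF, BTA, MVA, EQV, RCM).
PROOF.  RCM.  In the second case `AbF β k a i`, `Two2 k b p i`; `j ≠ i`.  `p < j < i`: EQV with `s = i`.  Let
`j ≤ p`.  `a j = 0`: otherwise `a2 a i` has entries `≥ 1` at `j`, `≥ 2` at `i`, and ABU for `D0f β` with the
blocks `j < i` gives `AbF β k (a2 a i) j`, so `AbF β k a j` (TRN (1)), contradiction.  `AbF θ k a p`: clear if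
`j = p`; if `j < p < i`: MVA with `s = i`.  Let `c = a + 2 e_p + 2 e_i`, `L1 θ k a c`; USE (first part) for `C4f β`
with the blocks `p ≤ i`: `(1,1)` for `b`, `(1,2)` for `c`: `Bt β k b c i`; (T4), (T3). -/
def Ra4Stmt : Prop := ∀ β : FIC, BsA β → Rr β → J3f β 2 → D0f β → C4f β → JPa β

/-- **RDA** (uses USE, BTA).  PROOF.  By symmetry (T4) let `2 ≤ a i`.  If `2 ≤ b i`: BTA (3).  Otherwise
`b i = 1` and there is `p < i` with `1 ≤ b p` (`2 ≤ deg k b`).  USE (first part) for `A1f β` with the blocks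
`p ≤ i`: `(1,1)` for `b`, `(0,2)` for `a`: `Bt β k b a i`; symmetry. -/
def RdaStmt : Prop :=
  ∀ β : FIC, BsA β → A1f β → ∀ (k : ℕ) (a b : ℕ → ℕ) (i : ℕ), 2 ≤ deg k a → 2 ≤ deg k b →
    Lst k a i → Lst k b i → (2 ≤ a i ∨ 2 ≤ b i) → Bt β k a b i

/-- **PPP** (uses USE, BTF, BTA).  Both types absorb before `i`.
PROOF.  Let `c = a2 a j`, `d = a2 b r`.  If `j ≤ r`: USE (second part) for `Pf β` with the blocks `j ≤ r ≤ i`:
`(2,0,1)` for `c`, `(0,2,1)` for `d`: `Bt β k c d i`.  If `r < j`: the blocks `r ≤ j ≤ i`, `(2,0,1)` for `d`, `(0,2,1)`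
for `c`: `Bt β k d c i`, symmetry.  (T3). -/
def PppStmt : Prop :=
  ∀ β : FIC, BsA β → Pf β → ∀ θ : FIC, β ≤ θ → ∀ (k : ℕ) (a b : ℕ → ℕ) (i j r : ℕ),
    Lst k a i → Lst k b i → j < i → r < i → AbF θ k a j → AbF θ k b r → Bt θ k a b i

/-- **LSM** (uses MWL.TRN, HAB, LGT).  If `a` absorbs in `θ` before `i`, and `b = e_p + e_i` does not absorb at
`p`, then `a` absorbs in `β` before `i`.
PROOF.  Otherwise LGT (`x = 0`) for `a` and `β` gives `q` with `Two2 k a q i`.  `f r := if r < i then p else r`: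
`psh k f a = b` on `0..k`, `f j = p`; TRN (4), (3): `AbF θ k b p`, contradiction. -/
def LsmStmt : Prop :=
  ∀ β : FIC, BsA β → J3f β 0 → ∀ θ : FIC, β ≤ θ → ∀ (k : ℕ) (a b : ℕ → ℕ) (i j p : ℕ),
    2 ≤ deg k a → Lst k a i → a i = 1 → j < i → AbF θ k a j → Two2 k b p i → ¬ AbF θ k b p →
      ∃ s < i, AbF β k a s

/-- **RDC** (uses LGT, RDA, BTF, PPP, LSM).  The common part of the systems b3 and b4.
PROOF.  If `2 ≤ a i` or `2 ≤ b i`: RDA.  So `a i = b i = 1`.  If `j = i`: `a2 a i` has the entry `3` at `i`; RDA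
for `a2 a i`, `b`, and (T3).  So `j < i`.  If `AbF θ k b r` for some `r < i`: PPP.  Otherwise LGT (`x = 0`) for
`b` and `θ`: `p` with `Two2 k b p i`; LSM gives `s`. -/
def RdcStmt : Prop :=
  ∀ β : FIC, BsA β → A1f β → Pf β → J3f β 0 → ∀ θ : FIC, β ≤ θ → ∀ (k : ℕ) (a b : ℕ → ℕ)
    (i j : ℕ), 2 ≤ deg k a → 2 ≤ deg k b → Lst k a i → Lst k b i → j ≤ i → AbF θ k a j →
      Bt θ k a b i ∨ (j < i ∧ (∃ s < i, AbF β k a s) ∧ ∃ p, Two2 k b p i)

/-- **RB3** (uses HAB, USE, BTF, BTA, EQV, RDC).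
PROOF.  RDC.  In the second case `j < i`, `s < i`, `AbF β k a s`, `Two2 k b p i`.  (1) `j ≤ p ≤ s` or `s ≤ p ≤ j`: let
`c r := a r + (if r = j ∨ r = s then 4 else 0)`; `L1 θ k a c` (HAB for `θ`).  USE (third part) for `Qf β` with the
blocks `min j s ≤ p ≤ max j s ≤ i`: `(0,1,0,1)` for `b`, `(2,0,2,1)` for `c` (if `j = s = p` the entry at `p` is
`≥ 4`): `Bt β k b c i`; (T4), (T3): `Bt θ k a b i`.  (2) Otherwise `p` is smaller or larger than both `j` and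
`s`: EQV with `s` (`b r = 0` for `r` between `j` and `s`, as `r ≠ p`, `r < i`). -/
def Rb3Stmt : Prop := ∀ β : FIC, BsA β → A1f β → Pf β → J3f β 0 → Qf β → JPa β

/-- **RB4** (uses MWL.TRN, USE, ABU, BTF, BTA, HVD, MVA, EQV, RDC).
PROOF.  RDC.  In the second case `j < i`, `s < i`, `AbF β k a s`, `Two2 k b p i`.  (1) `AbF θ k a p`: USE (first
part) for `Cf β` with the blocks `p ≤ i`: `(1,1)` for `b`, `(2,1)` for `a2 a p`: `Bt β k b (a2 a p) i`; (T4),
(T3).  (2) Otherwise `j ≠ p`, `s ≠ p`.  `a j = 0`: suppose `a j ≠ 0`.  If `j ≤ s`: HVD for `β` gives `AbF β k a j`,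
contradiction.  If `s < j < i`: `a2 a s` has entries `≥ 1` at `s < j < i`; ABU (second part) for `J3f β 1` gives
`AbF β k (a2 a s) j`, so `AbF β k a j` (TRN (1)), contradiction.  If `j` and `s` are on the same side of `p`:
EQV with `s`.  If not: MVA for `θ` gives `AbF θ k a p`, contradiction. -/
def Rb4Stmt : Prop :=
  ∀ β : FIC, BsA β → Rd β → A1f β → Pf β → J3f β 0 → J3f β 1 → Cf β → JPa β

/-- **RB5** (uses MWL.TRN, HAB, USE, ABU, BTF, BTA, LGT, PPP, LSM).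
PROOF.  (0) For `θ ≥ β`: `AbF θ k a r`, `t ≤ r ≤ k` give `AbF θ k a t` (`a2 a r` has an entry `≥ 2` at `r`; ABU for
`Gf θ` with the blocks `t < r`; TRN (1)).  (1) `AbF β k a i` would give `AbF β k a j`; so `¬ AbF β k a i`,
`a i = 1` (HAB).  (2) Suppose `AbF θ k a i`.  If `2 ≤ b i`: (T4) for `a2 a i`, `b`, and (T3).  If `b i = 1`, there
is `p < i` with `1 ≤ b p`; `c = a + 2 e_p + 2 e_i`, `L1 θ k a c` by (0); USE (first part) for `C5f β` with the
blocks `p ≤ i`: `(1,1)` for `b`, `(2,2)` for `c`: `Bt β k b c i`, (T4), (T3).  (3) Let `¬ AbF θ k a i`, so `j < i`.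
If `AbF β k b i`: there is `q < i` with `1 ≤ a q`; `d = b + 2 e_q + 2 e_i`, `L1 β k b d` by (0); USE for `C5f β` with
the blocks `q ≤ i`: `(1,1)` for `a`, `(2,2)` for `d`: `Bt β k a d i`, (T3).  (4) Let `¬ AbF β k b i`, `b i = 1`.  If
`AbF θ k b r` for some `r < i`: PPP.  Otherwise LGT (`x = 0`) for `b` and `θ`: `Two2 k b p i`, and LSM:
`AbF β k a s0` for some `s0 < i`.  Let `s` be the largest such block `< i` (`Nat.find` or a maximum of a
finite set).  By (0) `¬ AbF β k a j` gives `s < j`.  `a r = 0` for `s < r < i`: otherwise `a2 a s` has entries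
`≥ 1` at `s < r < i`, ABU for `J3f β 1`: `AbF β k a r`, against the choice of `s`.  Let
`f r := if j ≤ r ∧ r ≤ i then i else r`: `psh k f a = a` on `0..k` (`a` vanishes on `j, .., i-1`), `f j = i`;
TRN (4), (3): `AbF θ k a i`, a contradiction. -/
def Rb5Stmt : Prop :=
  ∀ β : FIC, BsA β → Gf β → J3f β 0 → J3f β 1 → Pf β → C5f β → JPa β

/-- **RB7** (uses HAB, BTU, USE, BTF, BTA, RDA).
PROOF.  `A1f β`: BTU for `B7f β` with `f t := if t = 0 then 0 else 1`: `Bt β 1 (v2 1 1) (v2 0 3) 1`, and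
`L1 β 1 (v2 0 2) (v2 0 3)` by HAB, BTF (2).  If `2 ≤ a i` or `2 ≤ b i`: RDA.  So `a i = b i = 1`.  `j = i`: RDA for
`a2 a i`, `b`, (T3).  `j < i`: `c = a2 a j`; there is `q < i` with `1 ≤ b q`.  `q ≤ j`: USE (second part) for
`B7f β` with the blocks `q ≤ j ≤ i`: `(1,0,1)` for `b`, `(0,2,1)` for `c`: `Bt β k b c i`, symmetry.  `j < q`: USE
for `B8f β` with `j ≤ q ≤ i`: `(2,0,1)` for `c`, `(0,1,1)` for `b`: `Bt β k c b i`.  (T3). -/
def Rb7Stmt : Prop := ∀ β : FIC, BsA β → B7f β → B8f β → JPa β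

/-! ### from identities between words to types -/

/-- **CNE** (uses W2X).  PROOF.  Each word is `w2 k a b (fun _ => false)` or `w2 k a b e'` for a suitable
`e'` with `e' i = true` at the last block `i` (`rfl` or `decide`; in the words of the third, sixth and
seventh line the order is changed in both blocks: `e' = fun _ => true`).  W2X. -/
def CneStmt : Prop :=
  ∀ β : FIC, ClA β →
    (RR β [0, 2, 0, 1, 1] [0, 2, 1, 1, 0] → A1f β) ∧
    (RR β [1, 1, 2, 0, 3, 0, 1, 1] [1, 1, 2, 0, 3, 1, 1, 0] → C2f β) ∧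
    (RR β [0, 1, 2, 0, 1, 1] [1, 0, 2, 1, 1, 0] → C4f β) ∧
    (RR β [0, 0, 2, 1, 1, 3, 0, 1] [0, 0, 2, 1, 1, 3, 1, 0] → Pf β) ∧
    (RR β [1, 1, 2, 0, 3, 1, 1, 4, 0, 1] [1, 1, 2, 0, 3, 1, 1, 4, 1, 0] → Qf β) ∧
    (RR β [0, 1, 1, 2, 0, 1] [1, 1, 0, 2, 1, 0] → Cf β) ∧
    (RR β [0, 1, 1, 2, 0, 1, 1] [1, 1, 0, 2, 1, 1, 0] → C5f β) ∧
    (RR β [0, 2, 1, 1, 3, 0, 1] [0, 2, 1, 1, 3, 1, 0] → B7f β) ∧
    (RR β [0, 0, 2, 1, 3, 0, 1] [0, 0, 2, 1, 3, 1, 0] → B8f β)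

/-- **CNO** (uses MWL.TRN, HAB).  PROOF.  The words are `mw k a` (`rfl`), e.g. the second identity is
`L1 β 2 (v3 1 1 1) (v3 2 2 2)`.  If `L1 β k a a'` and `2 ≤ a' t`, `t ≤ k`, then `a'` absorbs at `t` (HAB), so
`a` absorbs at `t` (TRN (1)).  First line: `Gf β` is this identity.  `D0f β` in the second line:
`AbF β 2 (v3 1 1 1) 0` pushed with `f t := if t = 0 then 0 else 1` (TRN (4), (3)). -/
def CnoStmt : Prop :=
  ∀ β : FIC, RR β [0, 0] [0, 0, 0] →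
    (RR β [2, 0, 0] [0, 0, 2, 0, 0] → Gf β) ∧
    (RR β [0, 2, 0, 3, 0] [0, 0, 2, 0, 0, 3, 0, 0] → J3f β 0 ∧ J3f β 1 ∧ J3f β 2 ∧ D0f β) ∧
    (RR β [0, 2, 0, 3, 0] [0, 2, 0, 3, 0, 0] → J3f β 2) ∧
    (RR β [0, 2, 0, 3, 0] [0, 0, 2, 0, 3, 0] → J3f β 0) ∧
    (RR β [0, 2, 0, 3, 0] [0, 0, 2, 0, 0, 3, 0] → J3f β 0 ∧ J3f β 1)

/-- **FSR** (uses SFM, ICA, OLR, CNE, CNO, RA1, RA2, RA3, RA4).  PROOF.  `OLI β` by ICA and OLR; `JPa β` by
CNE, CNO and RA1 .. RA4; SFM. -/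
def FsrStmt : Prop :=
  ∀ β : FIC, BsA β → Rr β → (SA1 β ∨ SA2 β ∨ SA3 β ∨ SA4 β) → DistF β

/-- **FSD** (uses SFM, ICA, OLD, CNE, CNO, RB3, RB4, RB5, RB7).  PROOF.  `OLI β` by ICA and OLD; `JPa β` by
CNE, CNO and RB3, RB4, RB5, RB7; SFM. -/
def FsdStmt : Prop :=
  ∀ β : FIC, BsA β → Rd β → (SB3 β ∨ SB4 β ∨ SB5 β ∨ SB7 β) → DistF β

end Pool.Agent.MWA
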