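import Pool.Agent.MWS.StmtsA
import Pool.Agent.MVO.StmtsA

/-!
# Block MWA: base (a) with `x² t x ≈ x² t x²` or with `x t x² ≈ x² t x²` (definitions)

MP_23468a_al, full answer.  Base (a): `xyzxty ≈ yxzxty` (s1), `xzxyty ≈ xzyxty` (s2),
`x²y² ≈ y²x²`, `x² ≈ x³`.  Over base (a) a word is given by the types of its letters and the order
of the last occurrences of the letters with the same last block.
-/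

namespace Pool.Agent.MWA

open Pool.Agent.Helper14_MV Pool.Agent.Helper2_MV Pool.Agent.MVO Pool.Agent.MWL Pool.Agent.MWS

/-- base (a): s1, s2, `x²y² ≈ y²x²`, `x² ≈ x³` -/
structure BsA (β : FIC) : Prop where
  cl : ClA β
  r0 : R0 β
  ap : RR β [0, 0] [0, 0, 0]

theorem ClA.mono {β θ : FIC} (h : ClA β) (hle : β ≤ θ) : ClA θ := ⟨hle _ _ h.s1, hle _ _ h.s2⟩

theorem BsA.mono {β θ : FIC} (h : BsA β) (hle : β ≤ θ) : BsA θ :=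
  ⟨ClA.mono h.cl hle, hle _ _ h.r0, hle _ _ h.ap⟩

/-- `x² t x ≈ x² t x²` -/
def Rr (β : FIC) : Prop := RR β [0, 0, 2, 0] [0, 0, 2, 0, 0]

/-- `x t x² ≈ x² t x²` -/
def Rd (β : FIC) : Prop := RR β [0, 2, 0, 0] [0, 0, 2, 0, 0]

/-- `i` is the last block of `a` -/
def Lst (k : ℕ) (a : ℕ → ℕ) (i : ℕ) : Prop := i ≤ k ∧ a i ≠ 0 ∧ ∀ j, i < j → j ≤ k → a j = 0

/-- `θ` absorbs: `a ≈ a + 2 e_i` -/
def AbF (θ : FIC) (k : ℕ) (a : ℕ → ℕ) (i : ℕ) : Prop := Ab 1 (FC.ofFIC θ) k a i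

/-- `a + 2 e_i` -/
def a2 (a : ℕ → ℕ) (i : ℕ) : ℕ → ℕ := fun j => a j + if j = i then 2 else 0

theorem AbF_iff (θ : FIC) (k : ℕ) (a : ℕ → ℕ) (i : ℕ) : AbF θ k a i ↔ L1 θ k a (a2 a i) :=
  Iff.rfl

theorem AbF.mono {β θ : FIC} (hle : β ≤ θ) {k : ℕ} {a : ℕ → ℕ} {i : ℕ} (h : AbF β k a i) :
    AbF θ k a i := hle _ _ h

theorem L1.mono {β θ : FIC} (hle : β ≤ θ) {k : ℕ} {a b : ℕ → ℕ} (h : L1 β k a b) :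
    L1 θ k a b := hle _ _ h

theorem Bt.mono {β θ : FIC} (hle : β ≤ θ) {k : ℕ} {a b : ℕ → ℕ} {i : ℕ} (h : Bt β k a b i) :
    Bt θ k a b i := fun e => hle _ _ (h e)

/-- the one letter facts which are used: related types agree in the blocks where they do not
absorb, and the distributive law for one letter types -/
structure OLI (β : FIC) : Prop where
  key : ∀ θ : FIC, β ≤ θ → NC2 θ → ∀ (k : ℕ) (a b : ℕ → ℕ), L1 θ k a b →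
    ∀ i ≤ k, ¬ AbF θ k a i → a i = b i
  law : ∀ ρ σ τ υ : FIC, β ≤ ρ → β ≤ σ → β ≤ τ → β ≤ υ → NC2 ρ → NC2 σ → NC2 τ →
    (∀ k a b, L1 ρ k a b → L1 τ k a b → L1 υ k a b) →
      (∀ k a b, L1 σ k a b → L1 τ k a b → L1 υ k a b) →
        ∀ (k : ℕ) (a b : ℕ → ℕ), L1 τ k a b → Jn (FC.ofFIC ρ) (FC.ofFIC σ) k a b → L1 υ k a b

/-- the condition on a system: if `θ` absorbs the type `a` in a block `j` where `β` does not, then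
`θ` contains the exchange of `a` and `b` in their common last block `i`, or the exchange of `a` and
`b` follows from the exchange of `a + 2 e_j` and `b` -/
def JPa (β : FIC) : Prop :=
  ∀ θ : FIC, β ≤ θ → NC2 θ → ∀ (k : ℕ) (a b : ℕ → ℕ) (i j : ℕ), 2 ≤ deg k a → 2 ≤ deg k b →
    Lst k a i → Lst k b i → j ≤ i → AbF θ k a j → ¬ AbF β k a j →
      Bt θ k a b i ∨ ∀ θ' : FIC, β ≤ θ' → Bt θ' k (a2 a j) b i → Bt θ' k a b i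

/-- `b` is `e_p + e_i` on the blocks `0..k` -/
def Two2 (k : ℕ) (b : ℕ → ℕ) (p i : ℕ) : Prop :=
  p < i ∧ i ≤ k ∧ ∀ r ≤ k, b r = if r = p ∨ r = i then 1 else 0

/-! ### the identities of the systems, for types -/

/-- `x|xyy ≈ x|yyx` -/
def A1f (β : FIC) : Prop := Bt β 1 (v2 1 1) (v2 0 2) 1
/-- `yy|x|xyy ≈ yy|x|yyx` -/
def C2f (β : FIC) : Prop := Bt β 2 (v3 0 1 1) (v3 2 0 2) 2
/-- `xy|xyy ≈ yx|yyx` -/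
def C4f (β : FIC) : Prop := Bt β 1 (v2 1 1) (v2 1 2) 1
/-- `xx|yy|xy ≈ xx|yy|yx` -/
def Pf (β : FIC) : Prop := Bt β 2 (v3 2 0 1) (v3 0 2 1) 2
/-- `yy|x|yy|xy ≈ yy|x|yy|yx` -/
def Qf (β : FIC) : Prop := Bt β 3 (v4 0 1 0 1) (v4 2 0 2 1) 3
/-- `xyy|xy ≈ yyx|yx` -/
def Cf (β : FIC) : Prop := Bt β 1 (v2 1 1) (v2 2 1) 1
/-- `xyy|xyy ≈ yyx|yyx` -/
def C5f (β : FIC) : Prop := Bt β 1 (v2 1 1) (v2 2 2) 1
/-- `x|yy|xy ≈ x|yy|yx` -/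
def B7f (β : FIC) : Prop := Bt β 2 (v3 1 0 1) (v3 0 2 1) 2
/-- `xx|y|xy ≈ xx|y|yx` -/
def B8f (β : FIC) : Prop := Bt β 2 (v3 2 0 1) (v3 0 1 1) 2
/-- `x|x|x` absorbs in block `t` -/
def J3f (β : FIC) (t : ℕ) : Prop := AbF β 2 (v3 1 1 1) t
/-- `|xx ≈ xx|xx` -/
def Gf (β : FIC) : Prop := AbF β 1 (v2 0 2) 0
/-- `x|xx` absorbs in block `0` -/
def D0f (β : FIC) : Prop := AbF β 1 (v2 1 2) 0

/-! ### the systems, as identities between words -/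

/-- `t xx ≈ xx t xx`, `x|x|x ≈ xx|xx|xx` -/
structure SA1 (β : FIC) : Prop where
  g : RR β [2, 0, 0] [0, 0, 2, 0, 0]
  j : RR β [0, 2, 0, 3, 0] [0, 0, 2, 0, 0, 3, 0, 0]

/-- `x|x|x ≈ x|x|xx`, `yy|x|xyy ≈ yy|x|yyx` -/
structure SA2 (β : FIC) : Prop where
  j : RR β [0, 2, 0, 3, 0] [0, 2, 0, 3, 0, 0]
  c : RR β [1, 1, 2, 0, 3, 0, 1, 1] [1, 1, 2, 0, 3, 1, 1, 0]

/-- `x|xyy ≈ x|yyx` -/
structure SA3 (β : FIC) : Prop where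
  a : RR β [0, 2, 0, 1, 1] [0, 2, 1, 1, 0]

/-- `xy|xyy ≈ yx|yyx`, `x|x|x ≈ xx|xx|xx` -/
structure SA4 (β : FIC) : Prop where
  c : RR β [0, 1, 2, 0, 1, 1] [1, 0, 2, 1, 1, 0]
  j : RR β [0, 2, 0, 3, 0] [0, 0, 2, 0, 0, 3, 0, 0]

/-- `xx|yy|xy ≈ xx|yy|yx`, `x|x|x ≈ xx|x|x`, `x|xyy ≈ x|yyx`, `yy|x|yy|xy ≈ yy|x|yy|yx` -/
structure SB3 (β : FIC) : Prop where
  p : RR β [0, 0, 2, 1, 1, 3, 0, 1] [0, 0, 2, 1, 1, 3, 1, 0]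
  j : RR β [0, 2, 0, 3, 0] [0, 0, 2, 0, 3, 0]
  a : RR β [0, 2, 0, 1, 1] [0, 2, 1, 1, 0]
  q : RR β [1, 1, 2, 0, 3, 1, 1, 4, 0, 1] [1, 1, 2, 0, 3, 1, 1, 4, 1, 0]

/-- `xx|yy|xy ≈ xx|yy|yx`, `xyy|xy ≈ yyx|yx`, `x|xyy ≈ x|yyx`, `x|x|x ≈ xx|xx|x` -/
structure SB4 (β : FIC) : Prop where
  p : RR β [0, 0, 2, 1, 1, 3, 0, 1] [0, 0, 2, 1, 1, 3, 1, 0]
  c : RR β [0, 1, 1, 2, 0, 1] [1, 1, 0, 2, 1, 0]
  a : RR β [0, 2, 0, 1, 1] [0, 2, 1, 1, 0]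
  j : RR β [0, 2, 0, 3, 0] [0, 0, 2, 0, 0, 3, 0]

/-- `xyy|xyy ≈ yyx|yyx`, `xx|yy|xy ≈ xx|yy|yx`, `|xx ≈ xx|xx`, `x|x|x ≈ xx|xx|x` -/
structure SB5 (β : FIC) : Prop where
  c : RR β [0, 1, 1, 2, 0, 1, 1] [1, 1, 0, 2, 1, 1, 0]
  p : RR β [0, 0, 2, 1, 1, 3, 0, 1] [0, 0, 2, 1, 1, 3, 1, 0]
  g : RR β [2, 0, 0] [0, 0, 2, 0, 0]
  j : RR β [0, 2, 0, 3, 0] [0, 0, 2, 0, 0, 3, 0]

/-- `x|yy|xy ≈ x|yy|yx`, `xx|y|xy ≈ xx|y|yx` -/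
structure SB7 (β : FIC) : Prop where
  a : RR β [0, 2, 1, 1, 3, 0, 1] [0, 2, 1, 1, 3, 1, 0]
  b : RR β [0, 0, 2, 1, 3, 0, 1] [0, 0, 2, 1, 3, 1, 0]

end Pool.Agent.MWA
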