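import Pool.Agent.MWA.Defs

/-!
# Block MWA, part 1: words, types and exchanges over base (a); the general theorem (rows)

Every row: file `Pool/Agent/HelperNN_MWA/XXX.lean`, import `Pool.Agent.MWA.Stmts`, namespace
`Pool.Agent.MWA.HNN`, theorem `xxx (hypotheses = rows in uses, in this order) : XxxStmt`.
`MVO.FMA` means `MVO.FmaStmt`, `MWL.TRN` means `MWL.TrnStmt`, `MWS.CHN` means `MWS.ChnStmt`.
`RR θ u v` is the congruence on lists (`RR.refl, symm, append, sub, filter`; transitivity is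
`θ.trans`); `β ≤ θ` is applied as `h _ _ hr`.  Words in blocks: `MVO/Basic.lean` (`asm_congr`,
`rr_ins`, `rr_ins'`, `rr_sub`, `asm_filter`, `count_asm`, `uniq`).  In the proofs `a ~ b` in `θ` is
`L1 θ k a b`; `a2 a j` is `a + 2 e_j`; `AbF θ k a j` is `L1 θ k a (a2 a j)` (definitionally also
`MWL.Ab 1 (FC.ofFIC θ) k a j`, so the rows TRN, KEY of MWL apply, `ad 1 a j = a2 a j`).
`L1 θ` is `(FC.ofFIC θ).R`, so the fields `ext`, `add`, `push` of `FC` can be used.
-/

namespace Pool.Agent.MWA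

open Pool.Agent.Helper14_MV Pool.Agent.Helper2_MV Pool.Agent.MVO Pool.Agent.MWL Pool.Agent.MWS

/-! ### basic facts -/

/-- **ICA** (uses MVO.FMA).  PROOF.  FMA exchanges two adjacent letters `c d` if `c` occurs behind them
and `d` occurs before or behind them: `[0,1,0,1] ~ [0,0,1,1]` (exchange of the letters at the places
2, 3), `[0,0,1,1] ~ [1,1,0,0]` (`r0`), and `[1,0,1,0] ~ [1,1,0,0]` (FMA for the places 2, 3 of
`[1,0,1,0]`: `c = 0`, `d = 1`). -/
def IcaStmt : Prop := ∀ β : FIC, BsA β → ApI β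

/-- **HAB** (uses MWL.TRN).  Heavy blocks absorb; absorption in several blocks at once.
PROOF.  (0) `RR θ (replicate p 0) (replicate q 0)` for `p, q ≥ 2` (`ap`, append, induction).  (1) If
`i ≤ k`, `2 ≤ a i`, `2 ≤ m`: `L1 θ k a (Function.update a i m)`: `mw k a = pre ++ replicate (a i) 0 ++ suf`
(`asm_split`, `asm_update`), (0) and `RR.append`.  First statement: `m = a i + 2` and `FC.ext`.  Second
statement: for `m ≤ k + 1` let `c_m r := if r < m then c r else a r`; claim `L1 θ k a c_m` by induction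
on `m`.  Step: if `c m = a m`, then `c_(m+1) = c_m` on `0..k`.  Otherwise `2 ≤ c m` and `AbF θ k a m`; by
TRN (1) `AbF θ k c_m m`, i.e. `c_m ~ c_m + 2 e_m`, whose entry at `m` is `≥ 2` and can be changed to
`c m` by (1).  At the end `FC.ext`. -/
def HabStmt : Prop :=
  ∀ θ : FIC, RR θ [0, 0] [0, 0, 0] →
    (∀ (k : ℕ) (a : ℕ → ℕ) (i : ℕ), i ≤ k → 2 ≤ a i → AbF θ k a i) ∧
    (∀ (k : ℕ) (a c : ℕ → ℕ), (∀ i ≤ k, c i = a i ∨ (2 ≤ c i ∧ AbF θ k a i)) → L1 θ k a c)

/-- **SPM** (uses nothing).  PROOF.  `sp k a` is the set of `j ≤ k` with `a j ≠ 0`; its maximum is `i` iff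
`i` is in it and no larger element is (`Finset.max_eq_...`, `Finset.le_max`, `Finset.mem_of_max`). -/
def SpmStmt : Prop :=
  ∀ (k : ℕ) (a : ℕ → ℕ) (i : ℕ), Lst k a i ↔ (sp k a).max = (i : WithBot ℕ)

/-- **TNF** (uses MVO.NFA).  Two letter words with the same types and the same last letters.
PROOF.  NFA.  Its hypotheses: counts by hypothesis, multiplicity by `OkB`.  The last letters: let
`NS k c`, `NS k d` and `p x = decide (x = c ∨ x = d)`; `p` is false on the simple letters, so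
`(asm k B).filter p` is the concatenation of the `(B j).filter p`, `j ≤ k` (induction on `k`).  If at most
one of the letters `0, 1` is in `{c, d}`: the filtered words are powers of this letter (or empty) with
the same length.  If both are: `(B j).filter p = B j` for `j ≤ k`.  If all blocks are empty: both words
are empty.  Otherwise let `i` be the last block `≤ k` which is not empty (the same for `B'`, same
counts); the last letter of the concatenation is the last letter of `B i`, resp. `B' i`.  If only one of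
the letters occurs in block `i`: the last letter is this letter, in both words.  If both occur, then
`Lst k (ty B 0) i` and `Lst k (ty B 1) i`, and the hypothesis applies. -/
def TnfStmt : Prop :=
  ∀ β : FIC, ClA β → ∀ (k : ℕ) (B B' : ℕ → List ℕ), OkB k B → OkB k B' → Two01 k B → Two01 k B' →
    (∀ j ≤ k, ∀ c, (B j).count c = (B' j).count c) →
      (∀ i, Lst k (ty B 0) i → Lst k (ty B 1) i → (B i).getLast? = (B' i).getLast?) →
        RR β (asm k B) (asm k B')

/-- **GW2** (uses TNF).  Every two letter word is gathered; the order `e` is only relevant in the common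
last block.
PROOF.  TNF for `B` and `B' j := bl (ty B 0 j) (ty B 1 j) (e j)` (`w2 k (ty B 0) (ty B 1) e = asm k B'` by
definition).  `OkB k B'`, `Two01 k B'`: the letters of `bl p q e` are `0` (`p ≠ 0`) and `1` (`q ≠ 0`), the
counts of `0, 1` in `B' j` are the counts in `B j`, and the other letters do not occur in `B j` (`Two01`).
In a common last block `i` both letters occur in `B i`; `B' i` ends with `0` if `e i` is true and with `1`
if `e i` is false; `B i` ends with `0` or `1`. -/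
def Gw2Stmt : Prop :=
  ∀ β : FIC, ClA β → ∀ (k : ℕ) (B : ℕ → List ℕ) (e : ℕ → Bool), OkB k B → Two01 k B →
    (∀ i, Lst k (ty B 0) i → Lst k (ty B 1) i → (e i = true ↔ (B i).getLast? = some 0)) →
      RR β (asm k B) (w2 k (ty B 0) (ty B 1) e)

/-- **W2R** (uses TNF).  Rigidity.
PROOF.  TNF for the blocks `bl (a j) (b j) (e j)`, `bl (a j) (b j) (e' j)`: `ty .. 0 = a`, `ty .. 1 = b` on
`0..k`; `OkB`: a letter which occurs has degree `≥ 1`, hence `≥ 2`.  In a common last block `e i = e' i`,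
so the blocks are equal. -/
def W2rStmt : Prop :=
  ∀ β : FIC, ClA β → ∀ (k : ℕ) (a b : ℕ → ℕ) (e e' : ℕ → Bool), deg k a ≠ 1 → deg k b ≠ 1 →
    (∀ i, Lst k a i → Lst k b i → e i = e' i) → RR β (w2 k a b e) (w2 k a b e')

/-- **W2X** (uses W2R).  One visible exchange gives all exchanges.
PROOF.  `2 ≤ deg k a`, `2 ≤ deg k b` (`a i ≠ 0`).  The common last block is unique.  Let `e''` be given; to
show `RR θ (w2 k a b e'') (w2 k a b (flp e'' i))`.  `e'' i` is `e i` or `e' i`.  If `e'' i = e i`, then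
`flp e'' i` has the value `!(e i) = e' i` at `i`; W2R: `w2 .. e'' ~ w2 .. e`, `w2 .. e' ~ w2 .. (flp e'' i)`.
If `e'' i = e' i`: the same with the hypothesis reversed. -/
def W2xStmt : Prop :=
  ∀ θ : FIC, ClA θ → ∀ (k : ℕ) (a b : ℕ → ℕ) (i : ℕ) (e e' : ℕ → Bool), deg k a ≠ 1 → deg k b ≠ 1 →
    Lst k a i → Lst k b i → e i ≠ e' i → RR θ (w2 k a b e) (w2 k a b e') → Bt θ k a b i

/-- **BTF** (uses MWS.CHK).  Transfer of types.
PROOF.  (1) `w2 k a b e = asm k (fun j => P j ++ replicate (a j) 0 ++ Q j)` with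
`P j = if e j then replicate (b j) 1 else []`, `Q j = if e j then [] else replicate (b j) 1`; CHK with
`c = 0`.  Then the letter `1`: `w2 k a' b e` with `P j = if e j then [] else replicate (a' j) 0`,
`Q j = if e j then replicate (a' j) 0 else []`, CHK with `c = 1`.  (2) From (1) for `e` and `flp e i`. -/
def BtfStmt : Prop :=
  ∀ (θ : FIC) (k : ℕ) (a a' b b' : ℕ → ℕ), L1 θ k a a' → L1 θ k b b' →
    (∀ e, RR θ (w2 k a b e) (w2 k a' b' e)) ∧ (∀ i, Bt θ k a' b' i → Bt θ k a b i)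

/-- **BTA** (uses MVO.FAA, W2R).  First facts on exchanges.
PROOF.  (1) W2R for `e` and `flp e i` (they agree off `i`; if `i` is not a common last block there is
nothing to check at `i`).  (2) FAA, fifth part.  (3) FAA, sixth part. -/
def BtaStmt : Prop :=
  ∀ θ : FIC, BsA θ →
    (∀ (k : ℕ) (a b : ℕ → ℕ) (i : ℕ), deg k a ≠ 1 → deg k b ≠ 1 → ¬ (Lst k a i ∧ Lst k b i) →
      Bt θ k a b i) ∧
    (∀ (k : ℕ) (a b : ℕ → ℕ) (i : ℕ), Bt θ k a b i → Bt θ k b a i) ∧
    (∀ (k : ℕ) (a b : ℕ → ℕ) (i : ℕ), i ≤ k → 2 ≤ a i → 2 ≤ b i → Bt θ k a b i)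

/-- **BTU** (uses MVO.FAA, SPM).  Push and add.
PROOF.  SPM translates `Lst` into the hypotheses of FAA.  FAA, fourth part: `Bt θ k (psh k0 f a0)
(psh k0 f b0) (f i0)`.  `f i0` is the last block of `psh k0 f a0` (`f` is monotone; the entry at `f i0` is
`≥ a0 i0`, the entries behind `f i0` are sums of entries of `a0` behind `i0`), and `deg` does not change
(`Finset.sum_comm` or induction), so `2 ≤ deg`.  FAA, third part, with `d t := a t - psh k0 f a0 t`,
`d' t := b t - psh k0 f b0 t`: the sums are equal to `a`, `b` on `0..k`; `Bt` depends only on the values on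
`0..k` (`w2`, `asm_congr`). -/
def BtuStmt : Prop :=
  ∀ θ : FIC, ClA θ → ∀ (k0 k : ℕ) (f a0 b0 a b : ℕ → ℕ) (i0 : ℕ), BMap k0 k f →
    2 ≤ deg k0 a0 → 2 ≤ deg k0 b0 → Lst k0 a0 i0 → Lst k0 b0 i0 → Bt θ k0 a0 b0 i0 →
      (∀ t ≤ k, psh k0 f a0 t ≤ a t) → (∀ t ≤ k, psh k0 f b0 t ≤ b t) → Bt θ k a b (f i0)

/-- **USE** (uses BTU).  The base exchanges at given blocks.
PROOF.  BTU with `f t := if t = 0 then r else i` (first part), `if t = 0 then r else if t = 1 then r'
else i` (second part), `if t = 0 then r else if t = 1 then r' else if t = 2 then r'' else i` (third part).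
`psh 2 f (v3 p q s) t = (if r = t then p else 0) + (if r' = t then q else 0) + (if i = t then s else 0)`
(`Finset.sum_range_succ`). -/
def UseStmt : Prop :=
  ∀ θ : FIC, ClA θ →
    (∀ (p q p' q' k r i : ℕ) (a b : ℕ → ℕ), 0 < q → 0 < q' → 2 ≤ p + q → 2 ≤ p' + q' →
      Bt θ 1 (v2 p q) (v2 p' q') 1 → r ≤ i → i ≤ k →
      (∀ t ≤ k, (if t = r then p else 0) + (if t = i then q else 0) ≤ a t) →
      (∀ t ≤ k, (if t = r then p' else 0) + (if t = i then q' else 0) ≤ b t) → Bt θ k a b i) ∧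
    (∀ (p q s p' q' s' k r r' i : ℕ) (a b : ℕ → ℕ), 0 < s → 0 < s' → 2 ≤ p + q + s →
      2 ≤ p' + q' + s' → Bt θ 2 (v3 p q s) (v3 p' q' s') 2 → r ≤ r' → r' ≤ i → i ≤ k →
      (∀ t ≤ k, (if t = r then p else 0) + (if t = r' then q else 0) +
        (if t = i then s else 0) ≤ a t) →
      (∀ t ≤ k, (if t = r then p' else 0) + (if t = r' then q' else 0) +
        (if t = i then s' else 0) ≤ b t) → Bt θ k a b i) ∧
    (∀ (p q s u p' q' s' u' k r r' r'' i : ℕ) (a b : ℕ → ℕ), 0 < u → 0 < u' →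
      2 ≤ p + q + s + u → 2 ≤ p' + q' + s' + u' → Bt θ 3 (v4 p q s u) (v4 p' q' s' u') 3 →
      r ≤ r' → r' ≤ r'' → r'' ≤ i → i ≤ k →
      (∀ t ≤ k, (if t = r then p else 0) + (if t = r' then q else 0) +
        (if t = r'' then s else 0) + (if t = i then u else 0) ≤ a t) →
      (∀ t ≤ k, (if t = r then p' else 0) + (if t = r' then q' else 0) +
        (if t = r'' then s' else 0) + (if t = i then u' else 0) ≤ b t) → Bt θ k a b i)

/-- **ABU** (uses MWL.TRN).  The base absorptions at given blocks.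
PROOF.  TRN (4) with the maps of USE (`f t`), TRN (2) with `d t := a t - (..)`, TRN (3). -/
def AbuStmt : Prop :=
  ∀ θ : FIC,
    (∀ (p q k r i x : ℕ) (a : ℕ → ℕ), x ≤ 1 → AbF θ 1 (v2 p q) x → r ≤ i → i ≤ k →
      (∀ t ≤ k, (if t = r then p else 0) + (if t = i then q else 0) ≤ a t) →
        AbF θ k a (if x = 0 then r else i)) ∧
    (∀ (p q s k r r' i x : ℕ) (a : ℕ → ℕ), x ≤ 2 → AbF θ 2 (v3 p q s) x → r ≤ r' → r' ≤ i → i ≤ k →
      (∀ t ≤ k, (if t = r then p else 0) + (if t = r' then q else 0) +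
        (if t = i then s else 0) ≤ a t) →
        AbF θ k a (if x = 0 then r else if x = 1 then r' else i))

/-! ### every congruence above base (a) is determined by two letter words -/

/-- **TYA** (uses MVO.GAA, MVO.ALN, MWS.CAP, ICA).  Gathering and adjustment of the types.
PROOF.  Let `X` be the list of the letters of the blocks `B 0, .., B k` without repetitions
(`List.dedup` of the concatenation).  If `x ∈ X`: `2 ≤ deg k (ty B x)` (`Mlt`).  CAP for
`L1 θ k (ty B x) (ty B' x)` (words `mw`, letter `0`, whose count is the degree: `count_asm`) gives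
`2 ≤ deg k (ty B' x)`; and if `NS k x` and `x` occurs in a block of `B'`, then `deg k (ty B' x) ≥ 1`, so by
CAP `deg k (ty B x) ≥ 1` and `x ∈ X`.  `Gath β` (GAA) for `B` and for `B'` (both with this `X`) gives `D` and
`D'` with `asm k B ~ gw k (fun j c => (B j).count c) D` and `asm k B' ~ gw k n' D'`.  ALN for the letters
of `X` one after the other (as in the row TYP of MVO, `Helper*_MVO/TYP.lean`) changes the types in
`gw k (fun j c => (B j).count c) D` to `n'`; the functions `n` need only agree for letters in `X`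
(`gb (n j) (D j)` depends only on them). -/
def TyaStmt : Prop :=
  ∀ β : FIC, BsA β → ∀ θ : FIC, β ≤ θ → NC2 θ → ∀ (k : ℕ) (B B' : ℕ → List ℕ), OkB k B →
    OkB k B' → (∀ x, NS k x → L1 θ k (ty B x) (ty B' x)) →
      ∃ (X : List ℕ) (D D' : ℕ → List ℕ), GData k X (fun j c => (B' j).count c) D ∧
        (∀ j, (D' j).Perm X) ∧ RR θ (asm k B) (gw k (fun j c => (B' j).count c) D) ∧
        RR θ (asm k B') (gw k (fun j c => (B' j).count c) D')

/-- **ORA** (uses MVO.SWA, MVO.BUB, W2X, BTA).  The order of the letters in gathered words.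
PROOF.  Call a family `F` of permutations of `X` good if the hypothesis holds for `F` in place of `D` (all
restrictions to two letters of `gw k n F` and `gw k n D'` are related).  Claim: if `F` is good,
`i ≤ k`, `F i = A ++ x :: y :: C` and `y` is before `x` in `D' i`, then
`RR θ (gw k n F) (gw k n (Function.update F i (A ++ y :: x :: C)))`, and the new family is good (restrict
this relation: `RR.filter`, `asm_filter`).  By SWA (`SW β` for `ω = θ`) it is enough to show
`Bt θ k a b i`, `a = n · x`, `b = n · y`.  If `¬ (Lst k a i ∧ Lst k b i)`: BTA (1).  Otherwise rename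
`x ↦ 0`, `y ↦ 1` in the restrictions (`rr_sub`): `RR θ (w2 k a b e1) (w2 k a b e2)`, where `e1 j` (`e2 j`) is true iff
`y` is before `x` in `F j` (`D' j`) (the computation of the restricted gathered blocks is in
`Helper28_MVO/ORD.lean`: `form_xy` and the lemmas before it); `e1 i = false`, `e2 i = true`; W2X.
BUB in the blocks `0, .., k` one after the other (as in `Helper28_MVO/ORD.lean`) transforms `D` into a
family which agrees with `D'` on `0..k`; `asm_congr`. -/
def OraStmt : Prop :=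
  ∀ β : FIC, BsA β → ∀ θ : FIC, β ≤ θ → ∀ (k : ℕ) (X : List ℕ) (n : ℕ → ℕ → ℕ)
    (D D' : ℕ → List ℕ), GData k X n D → (∀ j, (D' j).Perm X) →
      (∀ x ∈ X, ∀ y ∈ X, x ≠ y → RR θ (asm k (r2 x y (fun j => gb (n j) (D j))))
        (asm k (r2 x y (fun j => gb (n j) (D' j))))) → RR θ (gw k n D) (gw k n D')

/-- **D2A** (uses MVO.ONE, TYA, ORA).
PROOF.  For `NS k x` take `y := k + 2 + x` (`y ≠ x`, `NS k y`); ONE (first part) for `r2 x y B`, `r2 x y B'` and the
letter `x` gives `L1 θ k (ty B x) (ty B' x)` (`(r2 x y B j).count x = (B j).count x`).  TYA: `X, D, D'`.  For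
`x ≠ y` in `X`: `asm k (r2 x y (gb .. D)) ~ asm k (r2 x y B) ~ asm k (r2 x y B') ~ asm k (r2 x y (gb .. D'))`
in `θ` (first and third: `RR.filter` with `p c := decide (c = x ∨ c = y) || decide (2 ≤ c ∧ c ≤ k + 1)`,
`asm_filter`, and `NS` for the letters of the blocks).  ORA, and transitivity. -/
def D2aStmt : Prop := ∀ β : FIC, BsA β → D2 β

/-! ### the law for two letter words -/

/-- **OLP** (uses MVO.ONE, MWS.CHN).  The one letter law for the types of the letters.
PROOF.  `ψ := psi ρ σ τ`; `β ≤ ψ`.  `OLI.law` with `υ = ψ`: the two inclusions: `L1 ρ` and `L1 τ` give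
`L1 (inf ρ τ)`, hence `L1 ψ` (`FIC.le_sup_left`), the same for `σ`.  `L1 τ k (ty B x) (ty B' x)` by ONE.  The
chain: CHN gives a chain of `StM ρ σ k` from `B` to some `B''` with `asm k B' = asm k B''`, so
`B' j = B'' j` for `j ≤ k` (`uniq`); ONE for every step gives a step of `Jn`; at the end one more step
`(FC.ofFIC ρ).R k (ty B'' x) (ty B' x)` by `FC.ext`, `FC.refl`. -/
def OlpStmt : Prop :=
  ∀ β : FIC, ApI β → OLI β → ∀ ρ σ τ : FIC, β ≤ ρ → β ≤ σ → β ≤ τ → NC2 ρ → NC2 σ → NC2 τ →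
    ∀ (k : ℕ) (B B' : ℕ → List ℕ), OkB k B → OkB k B' → RR (FIC.sup ρ σ) (asm k B) (asm k B') →
      RR τ (asm k B) (asm k B') → ∀ x, NS k x → L1 (psi ρ σ τ) k (ty B x) (ty B' x)

/-- **SPX** (uses MVO.ONE, MWS.CHN, ICA, HAB, GW2, W2R, W2X, BTF, BTA).  Join primality of an exchange
whose types absorb in `ρ` and in `σ` only where they absorb in `β`.
PROOF.  Suppose neither `Bt ρ k a b i` nor `Bt σ k a b i`.  Let `S`, `S'` be the sets of all `j ≤ k` with
`AbF β k a j`, `AbF β k b j`.  No `j ∈ S` is `> i`: otherwise `¬ Lst k (a2 a j) i`, so `Bt β k (a2 a j) b i` by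
BTA (1), and `Bt β k a b i` by BTF (2), which is in `ρ`.  The same for `S'`.  Let `a⁺ = a + 2 1_S`,
`b⁺ = b + 2 1_S'`; `L1 β k a a⁺`, `L1 β k b b⁺` by HAB; `i` is their last block.  For a family `B` let
`B⁺ j := (if j ∈ S then [0,0] else []) ++ (if j ∈ S' then [1,1] else []) ++ B j`.  Let `W e` be the blocks
`fun j => bl (a j) (b j) (e j)` of `w2 k a b e`, `e0 := fun _ => false`, `e1 := flp e0 i`, and
`A B := RR β (w2 k a b e0) (asm k B⁺)`.
(i) `A (W e0)`: GW2 for `(W e0)⁺` (types `a⁺`, `b⁺` on `0..k`; block `i` ends with `1`) and BTF (1).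
(ii) not `A (W e1)`: as in (i) `asm k (W e1)⁺ ~ w2 k a b e1` in `β` (block `i` ends with `0`), so `A (W e1)`
gives `Bt β k a b i` by W2X, which is in `ρ`.
(iii) Let `θ` be `ρ` or `σ`, `OkB k B`, `OkB k B'`, `Two01 k B'`, `RR θ (asm k B) (asm k B')` and `A B`; then
`A B'`.  `rr_ins'` gives `RR θ (asm k B⁺) (asm k B'⁺)`, so `RR θ (w2 k a b e0) (asm k B'⁺)`.  Let
`a' = ty B'⁺ 0`, `b' = ty B'⁺ 1`; ONE: `L1 θ k a a'`, `L1 θ k b b'`.  For `j ≤ k`: if `¬ AbF θ k a j`, then
`a j = a' j` (`OLI.key`); if `AbF θ k a j`, then `j ∈ S` by hypothesis and `2 ≤ a' j`.  HAB for `β`: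
`L1 β k a a'`; the same for `b'`.  Let `e' j := decide ((B'⁺ j).getLast? = some 0)`; GW2 and BTF (1):
`asm k B'⁺ ~ w2 k a' b' e' ~ w2 k a b e'` in `β`.  So `RR θ (w2 k a b e0) (w2 k a b e')`.  If `e' i = true`:
W2X gives `Bt θ k a b i`, a contradiction.  So `e' i = false`, and W2R gives `A B'`.
CHN for the pair `w2 k a b e0`, `w2 k a b e1` of `sup ρ σ`: a chain of `StM ρ σ k` from `W e0` to some
`B''` with `asm k B'' = asm k (W e1)`; by induction all families of the chain satisfy `A` and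
`Two01` (`MWS.Sub`); `B'' j = W e1 j` for `j ≤ k` (`uniq`), so `A (W e1)`: contradiction. -/
def SpxStmt : Prop :=
  ∀ β : FIC, BsA β → OLI β → ∀ ρ σ : FIC, β ≤ ρ → β ≤ σ → NC2 ρ → NC2 σ →
    ∀ (k : ℕ) (a b : ℕ → ℕ) (i : ℕ), 2 ≤ deg k a → 2 ≤ deg k b → Lst k a i → Lst k b i →
      (∀ j ≤ k, (AbF ρ k a j → AbF β k a j) ∧ (AbF σ k a j → AbF β k a j) ∧
        (AbF ρ k b j → AbF β k b j) ∧ (AbF σ k b j → AbF β k b j)) →
        Bt (FIC.sup ρ σ) k a b i → Bt ρ k a b i ∨ Bt σ k a b i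

/-- **JPX** (uses MWL.TRN, HAB, BTF, BTA, BTU, SPX).  Join primality of the exchanges.
PROOF.  Strong induction on the number of `j ≤ k` with `¬ AbF β k a j` plus the number of `j ≤ k` with
`¬ AbF β k b j` (for all `a`, `b`).  If the hypothesis of SPX holds: SPX.  Otherwise there are
`θ ∈ {ρ, σ}` and `j ≤ k` with `AbF θ k a j`, `¬ AbF β k a j`, or the same for `b`; in the second case
exchange the roles of `a` and `b` (BTA (2)).  If `j > i`: `¬ Lst k (a2 a j) i`, so `Bt θ k (a2 a j) b i` by BTA (1)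
and `Bt θ k a b i` by BTF (2): done.  If `j ≤ i`: `JPa` gives `Bt θ k a b i` (done) or
(∗) `∀ θ' ≥ β, Bt θ' k (a2 a j) b i → Bt θ' k a b i`.  In the latter case `Bt (sup ρ σ) k (a2 a j) b i` by BTU
with `f = id` (`psh k id a = a` on `0..k`); the number of non absorbing blocks of `a2 a j` is smaller:
`AbF β k (a2 a j) j` by HAB (entry `≥ 2`), and `AbF β k a r` implies `AbF β k (a2 a j) r` (TRN (2)).
`Lst k (a2 a j) i`, `2 ≤ deg`.  By induction `Bt ρ k (a2 a j) b i` or `Bt σ k (a2 a j) b i`; (∗) for `θ' = ρ` or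
`θ' = σ`. -/
def JpxStmt : Prop :=
  ∀ β : FIC, BsA β → OLI β → JPa β → ∀ ρ σ : FIC, β ≤ ρ → β ≤ σ → NC2 ρ → NC2 σ →
    ∀ (k : ℕ) (a b : ℕ → ℕ) (i : ℕ), 2 ≤ deg k a → 2 ≤ deg k b → Lst k a i → Lst k b i →
      Bt (FIC.sup ρ σ) k a b i → Bt ρ k a b i ∨ Bt σ k a b i

/-- **MJA** (uses ICA, OLP, JPX, GW2, W2R, W2X, BTF).  The distributive law for two letter words.
PROOF.  `ψ := psi ρ σ τ`; `β ≤ ψ`, `ψ ≤ τ`, `ψ ≤ sup ρ σ` (`FIC.sup_le`, `FIC.le_sup_left`, ..).  Let
`a = ty B 0`, `b = ty B 1`, `a' = ty B' 0`, `b' = ty B' 1`; `deg ≠ 1` for all four (`Mlt`).  OLP: `L1 ψ k a a'`,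
`L1 ψ k b b'`.  GW2 with `e j := decide ((B j).getLast? = some 0)`: `asm k B ~ w2 k a b e`, and
`asm k B' ~ w2 k a' b' e'` in `β`; BTF (1) for `ψ`: `w2 k a b e' ~ w2 k a' b' e'` in `ψ`.  So it remains
`RR ψ (w2 k a b e) (w2 k a b e')`, and this pair is in `sup ρ σ` and in `τ` because `ψ` is contained in
both.  If `e i = e' i` for every common last block: W2R.  Otherwise let `i` be the common last block,
`e i ≠ e' i`.  W2X: `Bt (sup ρ σ) k a b i` and `Bt τ k a b i`.  JPX: `Bt ρ k a b i` or `Bt σ k a b i`, so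
`Bt (inf ρ τ) k a b i` or `Bt (inf σ τ) k a b i`, so `Bt ψ k a b i`: `w2 k a b e ~ w2 k a b (flp e i)` in `ψ`, and
`w2 k a b (flp e i) ~ w2 k a b e'` in `β` by W2R. -/
def MjaStmt : Prop := ∀ β : FIC, BsA β → OLI β → JPa β → MJ2 β

/-- **SFM** (uses ICA, D2A, MJA, MWS.TLP, MWS.BLK, MWS.DGN, MWS.GLD).  The general theorem.
PROOF.  `D2 β`, `MJ2 β`, TLP: `MJB β`; BLK: `MJN β`; DGN: `MJ β`; GLD. -/
def SfmStmt : Prop := ∀ β : FIC, BsA β → OLI β → JPa β → DistF β

/-- **OLR** (uses MWL.KEY, MWL.LAW, MWS.NDN, MWS.LRN).  The one letter facts for `x²tx ≈ x²tx²`.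
PROOF.  For `θ ≥ β`: `LR 1 (FC.ofFIC θ)` by LRN (`BaseR β` from `ApI β` and `Rr β`); `ND (FC.ofFIC θ)` by NDN
if `NC2 θ`.  `key` is KEY, `law` is LAW with `n = 1`. -/
def OlrStmt : Prop := ∀ β : FIC, ApI β → Rr β → OLI β

/-- **OLD** (uses MWL.KEY, MWL.LAW, MWL.REV, MWS.NDN).  The one letter facts for `xtx² ≈ x²tx²`.
PROOF.  For `θ ≥ β` let `R' θ` be the reversed congruence of `FC.ofFIC θ` (REV):
`(R' θ).R k a b ↔ L1 θ k (fun j => a (k - j)) (fun j => b (k - j))`.  `LR 1 (R' θ)`: `per`: by `FC.ext` this is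
`L1 θ 0 (sg 0 2) (sg 0 3)` (`ap`); `rr`: `v2 2 1` reversed on `0..1` is `v2 1 2`, so it is `Rd` (`FC.ext`).
`ND (R' θ)` from `ND (FC.ofFIC θ)` (NDN; `deg` does not change under reversal, `Finset.sum_range_reflect`).
`key`: apply KEY to `R' θ`, the reversed vectors and the block `k - i`: `AbF θ k a i ↔
Ab 1 (R' θ) k (fun j => a (k - j)) (k - i)` (`FC.ext`: for `j, i ≤ k`, `k - (k - j) = j`, and `j = i` iff
`k - j = k - i`).  `law`: LAW for the four reversed congruences; the chain `Jn (FC.ofFIC ρ) (FC.ofFIC σ) k a b` is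
mapped by `a ↦ fun j => a (k - j)` to a chain of the reversed ones (`Relation.ReflTransGen.lift`,
`FC.ext`). -/
def OldStmt : Prop := ∀ β : FIC, ApI β → Rd β → OLI β

end Pool.Agent.MWA
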